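import Pool.Agent.Lib.MP_7a5e6c_co_PORD.Defs

/-!
# From path growth to a triangulation of permutation type

Positions are the indices in the final Hamiltonian path `P ++ [t]`, times (`lev`) are the indices
in `(t :: O).reverse`. Suggested invariant, by induction on `PathGrowth G O P U` (all lists
without duplicates, `P` a permutation of `O`, `U` a sublist of `P` with the same first and last
element): for every `x lev : V → ℕ` with `P.Pairwise (x · < x ·)` and `O.Pairwise (lev · > lev ·)`,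
all vertices in `O`, `bt z s v := Btw (x z) (x s) (x v)`:
* (nc) `G.Adj v z → G.Adj t s → lev z < lev v → lev v < lev t → lev s < lev v → ¬ bt z s v`;
* (vis) `z ∈ U ↔ ∀ t s, G.Adj t s → lev s < lev t → lev z < lev t → ¬ bt s z t`;
* (max) `lev z < lev v → ¬ G.Adj v z →
   (∃ s, lev s < lev v ∧ bt z s v ∧ (s ∈ U ∨ ∃ t, G.Adj t s ∧ lev v < lev t)) ∨
   (∃ t s, G.Adj t s ∧ lev s < lev t ∧ lev t < lev v ∧ lev z < lev t ∧ bt s z t)`;
* (good) `lev z < lev v → (∀ w, bt z w v → lev v < lev w) → G.Adj v z`.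
In the step the new vertex `v` has the largest `lev`; in `insert` its neighbours in `P` are `a`
and `b`, so `x a < x v < x b` and no other old vertex is between `a` and `b`; a non-neighbour
`z ∈ U` of `v` lies beyond `x` or `y` and then `s = x` resp. `s = y` is a witness for (max). An
`s ∈ U` that leaves `U` gets the new neighbour `v`. The last vertex `t` is a `right` step that
covers the whole of `U`; afterwards each vertex of `U` is adjacent to `t`. The case `flip`: reverse
`x` (replace `x` by `N - x` for large `N`), `bt` does not change.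
-/

open scoped Classical

namespace Pool.Agent.MP7a5e6cPORD

private def bt {V : Type*} (f : V → ℤ) (a s b : V) : Prop :=
  (f a < f s ∧ f s < f b) ∨ (f b < f s ∧ f s < f a)

private structure Inv {V : Type*} (G : SimpleGraph V) (O U : List V) (f : V → ℤ) (τ : V → ℕ) :
    Prop where
  une : U ≠ []
  usub : ∀ u ∈ U, u ∈ O
  upw : U.Pairwise (fun a b ↦ f a < f b)
  nc : ∀ v ∈ O, ∀ z ∈ O, ∀ t ∈ O, ∀ s ∈ O, G.Adj v z → G.Adj t s → τ z < τ v → τ v < τ t →
    τ s < τ v → ¬ bt f z s v
  vis : ∀ z ∈ O, (z ∈ U ↔ ∀ t ∈ O, ∀ s ∈ O, G.Adj t s → τ s < τ t → τ z < τ t → ¬ bt f s z t)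
  max : ∀ v ∈ O, ∀ z ∈ O, τ z < τ v → ¬ G.Adj v z →
    (∃ s ∈ O, τ s < τ v ∧ bt f z s v ∧ (s ∈ U ∨ ∃ t ∈ O, G.Adj t s ∧ τ v < τ t)) ∨
    (∃ t ∈ O, ∃ s ∈ O, G.Adj t s ∧ τ s < τ t ∧ τ t < τ v ∧ τ z < τ t ∧ bt f s z t)
  good : ∀ v ∈ O, ∀ z ∈ O, τ z < τ v → (∀ w ∈ O, bt f z w v → τ v < τ w) → G.Adj v z

private theorem inv_step {V : Type*} {G : SimpleGraph V} {O U U' C : List V} {f : V → ℤ}
    {τ : V → ℕ} {n : V} (h : Inv G O U f τ) (hτ : ∀ w ∈ O, τ w < τ n)
    (hCU : ∀ c ∈ C, c ∈ U) (hadj : ∀ w ∈ O, G.Adj n w ↔ w ∈ C)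
    (hU' : U'.Pairwise (fun a b ↦ f a < f b)) (hn : n ∈ U')
    (hU'O : ∀ u ∈ U', u = n ∨ u ∈ O)
    (h1 : ∀ z ∈ O, (z ∈ U' ↔ z ∈ U ∧ ∀ s ∈ C, ¬ bt f s z n))
    (h2 : ∀ z ∈ U, z ∉ C → ∃ s ∈ C, s ∈ U' ∧ bt f z s n)
    (h3 : ∀ z ∈ O, (∀ w ∈ O, ¬ bt f z w n) → z ∈ C)
    (h4 : ∀ z ∈ U, z ∉ U' → z ∈ C) : Inv G (n :: O) U' f τ where
  une := List.ne_nil_of_mem hn
  usub u hu := List.mem_cons.2 (hU'O u hu)
  upw := hU'
  nc := by
    intro v hv z hz t ht s hs hvz hts hzv hvt hsv
    rcases List.mem_cons.1 hv with rfl | hv'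
    · rcases List.mem_cons.1 ht with rfl | ht'
      · omega
      · have := hτ t ht'
        omega
    have hvn := hτ v hv'
    rcases List.mem_cons.1 hz with rfl | hz'
    · omega
    rcases List.mem_cons.1 hs with rfl | hs'
    · omega
    rcases List.mem_cons.1 ht with rfl | ht'
    · exact (h.vis s hs').1 (hCU s ((hadj s hs').1 hts)) v hv' z hz' hvz hzv hsv
    · exact h.nc v hv' z hz' t ht' s hs' hvz hts hzv hvt hsv
  vis := by
    intro z hz
    rcases List.mem_cons.1 hz with rfl | hz'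
    · refine ⟨fun _ t ht s hs hts hst hzt => ?_, fun _ => hn⟩
      rcases List.mem_cons.1 ht with rfl | ht'
      · omega
      · have := hτ t ht'
        omega
    rw [h1 z hz', h.vis z hz']
    constructor
    · rintro ⟨k1, k2⟩ t ht s hs hts hst hzt
      rcases List.mem_cons.1 ht with rfl | ht'
      · rcases List.mem_cons.1 hs with rfl | hs'
        · omega
        · exact k2 s ((hadj s hs').1 hts)
      · rcases List.mem_cons.1 hs with rfl | hs'
        · have := hτ t ht'
          omega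
        · exact k1 t ht' s hs' hts hst hzt
    · intro k
      refine ⟨fun t ht s hs => k t (List.mem_cons_of_mem _ ht) s (List.mem_cons_of_mem _ hs),
        fun s hs => ?_⟩
      have hsO := h.usub s (hCU s hs)
      exact k n List.mem_cons_self s (List.mem_cons_of_mem _ hsO) ((hadj s hsO).2 hs)
        (hτ s hsO) (hτ z hz')
  max := by
    intro v hv z hz hzv hvz
    rcases List.mem_cons.1 hz with rfl | hz'
    · rcases List.mem_cons.1 hv with rfl | hv'
      · omega
      · have := hτ v hv'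
        omega
    rcases List.mem_cons.1 hv with rfl | hv'
    · rw [hadj z hz'] at hvz
      by_cases hzU : z ∈ U
      · obtain ⟨s, hs, hsU, hb⟩ := h2 z hzU hvz
        have hsO := h.usub s (hCU s hs)
        exact Or.inl ⟨s, List.mem_cons_of_mem _ hsO, hτ s hsO, hb, Or.inl hsU⟩
      · rw [h.vis z hz'] at hzU
        push Not at hzU
        obtain ⟨t, ht, s, hs, k1, k2, k3, k4⟩ := hzU
        exact Or.inr ⟨t, List.mem_cons_of_mem _ ht, s, List.mem_cons_of_mem _ hs, k1, k2,
          hτ t ht, k3, k4⟩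
    · rcases h.max v hv' z hz' hzv hvz with ⟨s, hs, k1, k2, k3⟩ | ⟨t, ht, s, hs, k⟩
      · refine Or.inl ⟨s, List.mem_cons_of_mem _ hs, k1, k2, ?_⟩
        rcases k3 with k3 | ⟨t, ht, k3⟩
        · by_cases hsU : s ∈ U'
          · exact Or.inl hsU
          · exact Or.inr ⟨n, List.mem_cons_self, (hadj s hs).2 (h4 s k3 hsU), hτ v hv'⟩
        · exact Or.inr ⟨t, List.mem_cons_of_mem _ ht, k3⟩
      · exact Or.inr ⟨t, List.mem_cons_of_mem _ ht, s, List.mem_cons_of_mem _ hs, k⟩
  good := by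
    intro v hv z hz hzv hw
    rcases List.mem_cons.1 hz with rfl | hz'
    · rcases List.mem_cons.1 hv with rfl | hv'
      · omega
      · have := hτ v hv'
        omega
    rcases List.mem_cons.1 hv with rfl | hv'
    · refine (hadj z hz').2 (h3 z hz' fun w hwO hb => ?_)
      have k1 := hw w (List.mem_cons_of_mem _ hwO) hb
      have k2 := hτ w hwO
      omega
    · exact h.good v hv' z hz' hzv fun w hwO => hw w (List.mem_cons_of_mem _ hwO)

private theorem bt_neg {V : Type*} (f : V → ℤ) (a s b : V) :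
    bt (fun v ↦ -f v) a s b ↔ bt f a s b := by
  unfold bt
  constructor <;> intro h <;> rcases h with h | h <;> [right; left; right; left] <;>
    constructor <;> linarith [h.1, h.2]

private theorem head_le {V : Type*} {f : V → ℤ} {l : List V}
    (hl : l.Pairwise (fun a b ↦ f a < f b)) {x : V} (hx : l.head? = some x) :
    x ∈ l ∧ ∀ c ∈ l, f x ≤ f c := by
  cases l with
  | nil => simp at hx
  | cons y l =>
    simp only [List.head?_cons, Option.some.injEq] at hx
    subst hx
    refine ⟨List.mem_cons_self, fun c hc => ?_⟩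
    rcases List.mem_cons.1 hc with rfl | hc
    · exact le_rfl
    · exact ((List.pairwise_cons.1 hl).1 c hc).le

private theorem last_ge {V : Type*} {f : V → ℤ} {l : List V}
    (hl : l.Pairwise (fun a b ↦ f a < f b)) {y : V} (hy : l.getLast? = some y) :
    y ∈ l ∧ ∀ c ∈ l, f c ≤ f y := by
  have h1 : l.reverse.Pairwise (fun a b ↦ -f a < -f b) := by
    rw [List.pairwise_reverse]
    exact hl.imp fun h => by linarith
  have h2 : l.reverse.head? = some y := by
    rw [List.head?_reverse, hy]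
  obtain ⟨h3, h4⟩ := head_le (f := fun v ↦ -f v) h1 h2
  refine ⟨List.mem_reverse.1 h3, fun c hc => ?_⟩
  have := h4 c (List.mem_reverse.2 hc)
  linarith

private theorem inj_of {V : Type*} {f : V → ℤ} {l : List V}
    (hl : l.Pairwise (fun a b ↦ f a < f b)) {a b : V} (ha : a ∈ l) (hb : b ∈ l)
    (h : f a = f b) : a = b := by
  have h1 : (l.map f).Nodup := by
    rw [List.Nodup, List.pairwise_map]
    exact hl.imp fun h => ne_of_lt h
  exact List.inj_on_of_nodup_map h1 ha hb h

private theorem inv_insert {V : Type*} {G : SimpleGraph V} {O P₁ P₂ U₁ U₂ C₁ C₂ : List V}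
    {a b x y v : V} {f : V → ℤ} {τ : V → ℕ} (hP : (P₁ ++ a :: b :: P₂).Perm O)
    (hI : Inv G O (U₁ ++ (C₁ ++ a :: b :: C₂) ++ U₂) f τ)
    (hx : (C₁ ++ a :: b :: C₂).head? = some x) (hy : (C₁ ++ a :: b :: C₂).getLast? = some y)
    (hadj : ∀ w ∈ O, G.Adj v w ↔ w ∈ C₁ ++ a :: b :: C₂)
    (hf : (P₁ ++ a :: v :: b :: P₂).Pairwise (fun a b ↦ f a < f b))
    (hv : v ∉ O) (hτ : ∀ w ∈ O, τ w < τ v) :
    Inv G (v :: O) (U₁ ++ x :: v :: y :: U₂) f τ := by
  have hpw := hI.upw
  rw [List.pairwise_append, List.pairwise_append] at hpw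
  obtain ⟨⟨q1, q2, q3⟩, q4, q5⟩ := hpw
  have hC := q2
  obtain ⟨hx1, hx2⟩ := head_le hC hx
  obtain ⟨hy1, hy2⟩ := last_ge hC hy
  have haC : a ∈ C₁ ++ a :: b :: C₂ := by simp
  have hbC : b ∈ C₁ ++ a :: b :: C₂ := by simp
  rw [List.pairwise_append, List.pairwise_cons, List.pairwise_cons, List.pairwise_cons] at hf
  obtain ⟨p1, ⟨p2, p3, p4, p5⟩, p6⟩ := hf
  have hav : f a < f v := p2 v (by simp)
  have hvb : f v < f b := p3 b (by simp)
  have hxa := hx2 a haC
  have hby := hy2 b hbC
  have hCd : ∀ z ∈ C₁ ++ a :: b :: C₂, f z ≤ f a ∨ f b ≤ f z := by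
    intro z hz
    rw [List.pairwise_append, List.pairwise_cons, List.pairwise_cons] at q2
    obtain ⟨r1, ⟨r2, r3, r4⟩, r5⟩ := q2
    simp only [List.mem_append, List.mem_cons] at hz
    rcases hz with hz | rfl | rfl | hz
    · exact Or.inl (r5 z hz a (by simp)).le
    · exact Or.inl le_rfl
    · exact Or.inr le_rfl
    · exact Or.inr (r3 z hz).le
  have hmU : ∀ z, z ∈ U₁ ++ (C₁ ++ a :: b :: C₂) ++ U₂ ↔
      z ∈ U₁ ∨ z ∈ C₁ ++ a :: b :: C₂ ∨ z ∈ U₂ := by
    intro z
    rw [List.mem_append, List.mem_append, or_assoc]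
  have q3' : ∀ u ∈ U₁, ∀ c ∈ C₁ ++ a :: b :: C₂, f u < f c := q3
  have q5' : ∀ c ∈ C₁ ++ a :: b :: C₂, ∀ u ∈ U₂, f c < f u :=
    fun c hc u hu => q5 c (List.mem_append_right _ hc) u hu
  have q6 : ∀ u ∈ U₁, ∀ w ∈ U₂, f u < f w := fun u hu w hw =>
    q5 u (List.mem_append_left _ hu) w hw
  have hCU : ∀ c ∈ C₁ ++ a :: b :: C₂, c ∈ U₁ ++ (C₁ ++ a :: b :: C₂) ++ U₂ :=
    fun c hc => (hmU c).2 (Or.inr (Or.inl hc))
  have hmU' : ∀ z, z ∈ U₁ ++ x :: v :: y :: U₂ ↔ z ∈ U₁ ∨ z = x ∨ z = v ∨ z = y ∨ z ∈ U₂ := by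
    intro z
    simp only [List.mem_append, List.mem_cons]
  refine inv_step (C := C₁ ++ a :: b :: C₂) hI hτ hCU hadj ?_ (by simp) ?_ ?_ ?_ ?_ ?_
  · rw [List.pairwise_append]
    refine ⟨q1, ?_, ?_⟩
    · rw [List.pairwise_cons, List.pairwise_cons, List.pairwise_cons]
      refine ⟨?_, ?_, ?_, q4⟩
      · intro z hz
        simp only [List.mem_cons] at hz
        rcases hz with rfl | rfl | hz
        · linarith
        · linarith
        · exact q5' x hx1 z hz
      · intro z hz
        simp only [List.mem_cons] at hz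
        rcases hz with rfl | hz
        · linarith
        · have := q5' b hbC z hz
          linarith
      · intro z hz
        exact q5' y hy1 z hz
    · intro u hu z hz
      simp only [List.mem_cons] at hz
      rcases hz with rfl | rfl | rfl | hz
      · exact q3' u hu z hx1
      · have := q3' u hu a haC
        linarith
      · exact q3' u hu z hy1
      · exact q6 u hu z hz
  · intro u hu
    rcases (hmU' u).1 hu with hu | rfl | rfl | rfl | hu
    · exact Or.inr (hI.usub u ((hmU u).2 (Or.inl hu)))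
    · exact Or.inr (hI.usub u (hCU u hx1))
    · exact Or.inl rfl
    · exact Or.inr (hI.usub u (hCU u hy1))
    · exact Or.inr (hI.usub u ((hmU u).2 (Or.inr (Or.inr hu))))
  · intro z hz
    have hzv : z ≠ v := fun h => hv (h ▸ hz)
    constructor
    · intro hz'
      rcases (hmU' z).1 hz' with hu | rfl | hu | rfl | hu
      · refine ⟨(hmU z).2 (Or.inl hu), fun s hs hb => ?_⟩
        have k1 := q3' z hu s hs
        have k2 := q3' z hu a haC
        rcases hb with hb | hb <;> linarith [hb.1, hb.2]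
      · refine ⟨hCU z hx1, fun s hs hb => ?_⟩
        have k1 := hx2 s hs
        rcases hb with hb | hb <;> linarith [hb.1, hb.2]
      · exact absurd hu hzv
      · refine ⟨hCU z hy1, fun s hs hb => ?_⟩
        have k1 := hy2 s hs
        rcases hb with hb | hb <;> linarith [hb.1, hb.2]
      · refine ⟨(hmU z).2 (Or.inr (Or.inr hu)), fun s hs hb => ?_⟩
        have k1 := q5' s hs z hu
        have k2 := q5' b hbC z hu
        rcases hb with hb | hb <;> linarith [hb.1, hb.2]
    · rintro ⟨hzU, hs⟩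
      rw [hmU']
      rcases (hmU z).1 hzU with hu | hu | hu
      · exact Or.inl hu
      · rcases hCd z hu with k | k
        · right; left
          refine inj_of hC hu hx1 ?_
          have k1 := hx2 z hu
          by_contra hne
          exact hs x hx1 (Or.inl ⟨lt_of_le_of_ne k1 (Ne.symm hne), by linarith⟩)
        · right; right; right; left
          refine inj_of hC hu hy1 ?_
          have k1 := hy2 z hu
          by_contra hne
          exact hs y hy1 (Or.inr ⟨by linarith, lt_of_le_of_ne k1 hne⟩)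
      · exact Or.inr (Or.inr (Or.inr (Or.inr hu)))
  · intro z hzU hzC
    rcases (hmU z).1 hzU with hu | hu | hu
    · have := q3' z hu x hx1
      exact ⟨x, hx1, by simp, Or.inl ⟨this, by linarith⟩⟩
    · exact absurd hu hzC
    · have := q5' y hy1 z hu
      exact ⟨y, hy1, by simp, Or.inr ⟨by linarith, this⟩⟩
  · intro z hz hw
    have haO : a ∈ O := hP.mem_iff.1 (by simp)
    have hbO : b ∈ O := hP.mem_iff.1 (by simp)
    have hzP := hP.mem_iff.2 hz
    simp only [List.mem_append, List.mem_cons] at hzP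
    rcases hzP with hzP | rfl | rfl | hzP
    · have := p6 z hzP a (by simp)
      exact absurd (Or.inl ⟨this, hav⟩) (hw a haO)
    · exact haC
    · exact hbC
    · have := p4 z hzP
      exact absurd (Or.inr ⟨hvb, this⟩) (hw b hbO)
  · intro z hzU hzU'
    rcases (hmU z).1 hzU with hu | hu | hu
    · exact absurd ((hmU' z).2 (Or.inl hu)) hzU'
    · exact hu
    · exact absurd ((hmU' z).2 (Or.inr (Or.inr (Or.inr (Or.inr hu))))) hzU'

private theorem inv_right {V : Type*} {G : SimpleGraph V} {O P U₁ U₂ : List V}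
    {x v : V} {f : V → ℤ} {τ : V → ℕ} (hP : P.Perm O)
    (hI : Inv G O (U₁ ++ x :: U₂) f τ)
    (hadj : ∀ w ∈ O, G.Adj v w ↔ w ∈ x :: U₂)
    (hf : (P ++ [v]).Pairwise (fun a b ↦ f a < f b))
    (hv : v ∉ O) (hτ : ∀ w ∈ O, τ w < τ v) :
    Inv G (v :: O) (U₁ ++ [x, v]) f τ := by
  have hpw := hI.upw
  rw [List.pairwise_append] at hpw
  obtain ⟨q1, q2, q3⟩ := hpw
  have hfv : ∀ w ∈ O, f w < f v := by
    intro w hw
    rw [List.pairwise_append] at hf
    exact hf.2.2 w (hP.mem_iff.2 hw) v (by simp)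
  have hxC : x ∈ x :: U₂ := List.mem_cons_self
  have hmU : ∀ z, z ∈ U₁ ++ x :: U₂ ↔ z ∈ U₁ ∨ z ∈ x :: U₂ := fun z => List.mem_append
  have hCU : ∀ c ∈ x :: U₂, c ∈ U₁ ++ x :: U₂ := fun c hc => List.mem_append_right _ hc
  have hmU' : ∀ z, z ∈ U₁ ++ [x, v] ↔ z ∈ U₁ ∨ z = x ∨ z = v := by
    intro z
    simp only [List.mem_append, List.mem_cons, List.not_mem_nil, or_false]
  have hx2 : ∀ c ∈ x :: U₂, f x ≤ f c := by
    intro c hc
    rcases List.mem_cons.1 hc with rfl | hc
    · exact le_rfl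
    · exact ((List.pairwise_cons.1 q2).1 c hc).le
  have hxv : f x < f v := hfv x (hI.usub x (hCU x hxC))
  refine inv_step (C := x :: U₂) hI hτ hCU hadj ?_ (by simp) ?_ ?_ ?_ ?_ ?_
  · rw [List.pairwise_append]
    refine ⟨q1, ?_, ?_⟩
    · simpa using hxv
    · intro u hu z hz
      simp only [List.mem_cons, List.not_mem_nil, or_false] at hz
      rcases hz with rfl | rfl
      · exact q3 u hu z hxC
      · exact (q3 u hu x hxC).trans hxv
  · intro u hu
    rcases (hmU' u).1 hu with hu | rfl | rfl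
    · exact Or.inr (hI.usub u ((hmU u).2 (Or.inl hu)))
    · exact Or.inr (hI.usub u (hCU u hxC))
    · exact Or.inl rfl
  · intro z hz
    have hzv : z ≠ v := fun h => hv (h ▸ hz)
    constructor
    · intro hz'
      rcases (hmU' z).1 hz' with hu | rfl | hu
      · refine ⟨(hmU z).2 (Or.inl hu), fun s hs hb => ?_⟩
        have k1 := q3 z hu s hs
        have k2 := hfv z hz
        rcases hb with hb | hb <;> linarith [hb.1, hb.2]
      · refine ⟨hCU z hxC, fun s hs hb => ?_⟩
        have k1 := hx2 s hs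
        rcases hb with hb | hb <;> linarith [hb.1, hb.2]
      · exact absurd hu hzv
    · rintro ⟨hzU, hs⟩
      rw [hmU']
      rcases (hmU z).1 hzU with hu | hu
      · exact Or.inl hu
      · right; left
        refine inj_of q2 hu hxC ?_
        have k1 := hx2 z hu
        by_contra hne
        exact hs x hxC (Or.inl ⟨lt_of_le_of_ne k1 (Ne.symm hne), hfv z hz⟩)
  · intro z hzU hzC
    rcases (hmU z).1 hzU with hu | hu
    · exact ⟨x, hxC, by simp, Or.inl ⟨q3 z hu x hxC, hxv⟩⟩
    · exact absurd hu hzC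
  · intro z hz hw
    have hmx : ∀ w ∈ O, f w ≤ f z := by
      intro w hwO
      by_contra hlt
      push Not at hlt
      exact hw w hwO (Or.inl ⟨hlt, hfv w hwO⟩)
    have hzU : z ∈ U₁ ++ x :: U₂ := by
      refine (hI.vis z hz).2 fun t ht s hs _ _ _ hb => ?_
      have k1 := hmx t ht
      have k2 := hmx s hs
      rcases hb with hb | hb <;> linarith [hb.1, hb.2]
    rcases (hmU z).1 hzU with hu | hu
    · have k1 := q3 z hu x hxC
      have k2 := hmx x (hI.usub x (hCU x hxC))
      linarith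
    · exact hu
  · intro z hzU hzU'
    rcases (hmU z).1 hzU with hu | hu
    · exact absurd ((hmU' z).2 (Or.inl hu)) hzU'
    · exact hu

private theorem inv_of {V : Type*} {G : SimpleGraph V} {O P U : List V}
    (h : PathGrowth G O P U) :
    P.Perm O ∧ O.Nodup ∧ ∀ (f : V → ℤ) (τ : V → ℕ), P.Pairwise (fun a b ↦ f a < f b) →
      O.Pairwise (fun a b ↦ τ b < τ a) → Inv G O U f τ := by
  induction h with
  | point a =>
    refine ⟨List.Perm.refl _, by simp, fun f τ _ _ => ⟨by simp, by simp, by simp, ?_, ?_, ?_, ?_⟩⟩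
    · intro v hv z hz t ht s hs _ _ k
      simp only [List.mem_singleton] at hv hz
      subst hv hz
      omega
    · intro z hz
      refine ⟨fun _ t ht s hs _ k _ => ?_, fun _ => hz⟩
      simp only [List.mem_singleton] at ht hs
      subst ht hs
      omega
    · intro v hv z hz k
      simp only [List.mem_singleton] at hv hz
      subst hv hz
      omega
    · intro v hv z hz k
      simp only [List.mem_singleton] at hv hz
      subst hv hz
      omega
  | insert O P₁ P₂ U₁ U₂ C₁ C₂ a b x y v h hv hx hy hadj ih =>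
    obtain ⟨ih1, ih3, ih2⟩ := ih
    refine ⟨?_, List.nodup_cons.2 ⟨hv, ih3⟩, fun f τ hf hτ => ?_⟩
    · have h1 : (P₁ ++ a :: v :: b :: P₂).Perm (v :: (P₁ ++ a :: b :: P₂)) := by
        have := List.perm_middle (a := v) (l₁ := P₁ ++ [a]) (l₂ := b :: P₂)
        simpa using this
      exact h1.trans (ih1.cons v)
    · rw [List.pairwise_cons] at hτ
      refine inv_insert ih1 (ih2 f τ ?_ hτ.2) hx hy hadj hf hv hτ.1
      refine hf.sublist ?_
      exact List.Sublist.append_left
        (List.Sublist.cons_cons a (List.sublist_cons_self v (b :: P₂))) P₁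
  | right O P U₁ U₂ x v h hv hadj ih =>
    obtain ⟨ih1, ih3, ih2⟩ := ih
    refine ⟨?_, List.nodup_cons.2 ⟨hv, ih3⟩, fun f τ hf hτ => ?_⟩
    · exact (List.perm_append_singleton v P).trans (ih1.cons v)
    · rw [List.pairwise_cons] at hτ
      exact inv_right ih1 (ih2 f τ (hf.sublist (List.sublist_append_left P [v])) hτ.2) hadj hf hv
        hτ.1
  | flip O P U h ih =>
    obtain ⟨ih1, ih3, ih2⟩ := ih
    refine ⟨(List.reverse_perm P).trans ih1, ih3, fun f τ hf hτ => ?_⟩
    have hI := ih2 (fun v ↦ -f v) τ (by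
      rw [List.pairwise_reverse] at hf
      exact hf.imp fun h => by linarith) hτ
    refine ⟨by simpa using hI.une, fun u hu => hI.usub u (List.mem_reverse.1 hu), ?_, ?_, ?_, ?_,
      ?_⟩
    · rw [List.pairwise_reverse]
      exact hI.upw.imp fun h => by linarith
    · simpa only [bt_neg] using hI.nc
    · simpa only [bt_neg, List.mem_reverse] using hI.vis
    · simpa only [bt_neg, List.mem_reverse] using hI.max
    · simpa only [bt_neg] using hI.good

theorem class_tri {n : ℕ} (G : SimpleGraph (Fin n)) (O P U : List (Fin n)) (t : Fin n)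
    (hG : PathGrowth G O P U) (ht : t ∉ O) (hO : ∀ v, v = t ∨ v ∈ O)
    (hadj : ∀ w ∈ O, G.Adj t w ↔ w ∈ U) :
    ∃ (π : Fin n ≃ Fin n) (lev : ℕ → ℕ), Tri n lev (ext (G.comap π)) ∧
      Good n lev (ext (G.comap π)) ∧ Top n lev := by
  obtain ⟨hPO, hOn, hI0⟩ := inv_of hG
  have hPt : (P ++ [t]).Perm (t :: O) := (List.perm_append_singleton t P).trans (hPO.cons t)
  have htn : (t :: O).Nodup := List.nodup_cons.2 ⟨ht, hOn⟩
  have hPn : (P ++ [t]).Nodup := hPt.nodup_iff.2 htn
  have hmem : ∀ v, v ∈ P ++ [t] := fun v => hPt.mem_iff.2 (List.mem_cons.2 (hO v))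
  let e := hPn.getEquivOfForallMemList _ hmem
  have hlen : (P ++ [t]).length = n := by
    have := Fintype.card_congr e
    simpa using this
  let π : Fin n ≃ Fin n := (finCongr hlen.symm).trans e
  let p : Fin n → ℕ := fun w => (π.symm w : ℕ)
  let f : Fin n → ℤ := fun w => (p w : ℤ)
  let τ : Fin n → ℕ := fun w => (t :: O).length - (t :: O).idxOf w
  have hfi : ∀ (i : ℕ) (hi : i < (P ++ [t]).length), p (P ++ [t])[i] = i := by
    intro i hi
    have h1 : π ⟨i, hlen ▸ hi⟩ = (P ++ [t])[i] := rfl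
    show (π.symm (P ++ [t])[i] : ℕ) = i
    rw [← h1, Equiv.symm_apply_apply]
  have hf : (P ++ [t]).Pairwise (fun a b ↦ f a < f b) := by
    rw [List.pairwise_iff_getElem]
    intro i j hi hj hij
    show (p _ : ℤ) < (p _ : ℤ)
    rw [hfi i hi, hfi j hj]
    exact_mod_cast hij
  have hτ : (t :: O).Pairwise (fun a b ↦ τ b < τ a) := by
    rw [List.pairwise_iff_getElem]
    intro i j hi hj hij
    show (t :: O).length - (t :: O).idxOf (t :: O)[j] < (t :: O).length - (t :: O).idxOf (t :: O)[i]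
    rw [htn.idxOf_getElem, htn.idxOf_getElem]
    omega
  have hτt : ∀ w ∈ O, τ w < τ t := (List.pairwise_cons.1 hτ).1
  have hall : ∀ w, w ∈ t :: O := fun w => List.mem_cons.2 (hO w)
  have hτi : ∀ u w, τ u = τ w → u = w := by
    intro u w h
    have h1 : (t :: O).idxOf u < (t :: O).length := List.idxOf_lt_length_of_mem (hall u)
    have h2 : (t :: O).idxOf w < (t :: O).length := List.idxOf_lt_length_of_mem (hall w)
    refine (List.idxOf_inj (hall u)).1 ?_
    have h3 : (t :: O).length - (t :: O).idxOf u = (t :: O).length - (t :: O).idxOf w := h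
    omega
  have hI := hI0 f τ (hf.sublist (List.sublist_append_left P [t])) (List.pairwise_cons.1 hτ).2
  obtain ⟨x, U₂, hU⟩ := List.exists_cons_of_ne_nil hI.une
  have hI' : Inv G (t :: O) ([] ++ [x, t]) f τ := by
    rw [hU] at hI
    exact inv_right (U₁ := []) hPO hI (by rw [← hU]; exact hadj) hf ht hτt
  let lev : ℕ → ℕ := fun a => if h : a < n then τ (π ⟨a, h⟩) else 0
  have hp : ∀ a, a < n → ∃ w, a = p w := fun a h => ⟨π ⟨a, h⟩, by simp [p]⟩
  have hpn : ∀ w, p w < n := fun w => (π.symm w).2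
  have hlev : ∀ w, lev (p w) = τ w := by
    intro w
    show (if h : p w < n then τ (π ⟨p w, h⟩) else 0) = τ w
    rw [dif_pos (hpn w)]
    congr 1
    exact π.apply_symm_apply w
  have hA : ∀ v z, ext (G.comap π) (p v) (p z) ↔ G.Adj v z := by
    intro v z
    have h1 : ∀ w (h : p w < n), π ⟨p w, h⟩ = w := fun w _ => π.apply_symm_apply w
    constructor
    · rintro ⟨hv, hz, h⟩
      rw [SimpleGraph.comap_adj, h1, h1] at h
      exact h
    · intro h
      refine ⟨hpn v, hpn z, ?_⟩
      rw [SimpleGraph.comap_adj, h1, h1]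
      exact h
  have hB : ∀ z s v, Btw (p z) (p s) (p v) ↔ bt f z s v := by
    intro z s v
    simp only [Btw, bt, f, Nat.cast_lt]
  have hpt : p t = n - 1 := by
    have hn : 0 < n := lt_of_le_of_lt (Nat.zero_le _) (hpn t)
    obtain ⟨w, hw⟩ := hp (n - 1) (by omega)
    have hwm := hmem w
    rw [List.mem_append, List.mem_singleton] at hwm
    rcases hwm with hwm | rfl
    · have h1 := (List.pairwise_append.1 hf).2.2 w hwm t (by simp)
      have h2 : p w < p t := Int.ofNat_lt.1 h1
      have h3 := hpn t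
      omega
    · exact hw.symm
  refine ⟨π, lev, ⟨?_, ?_, ?_, ?_, ?_, ?_⟩, ?_, ?_⟩
  · intro a b ha hb hab
    obtain ⟨v, rfl⟩ := hp a ha
    obtain ⟨w, rfl⟩ := hp b hb
    rw [hlev, hlev] at hab
    rw [hτi v w hab]
  · rintro a b ⟨ha, hb, h⟩
    exact ⟨hb, ha, h.symm⟩
  · rintro a b ⟨ha, hb, h⟩
    exact ha
  · rintro a ⟨ha, hb, h⟩
    exact (G.comap π).loopless.irrefl _ h
  · intro v z t' s hvz hts
    obtain ⟨v, rfl⟩ := hp v hvz.fst
    obtain ⟨z, rfl⟩ := hp z hvz.snd.fst
    obtain ⟨t', rfl⟩ := hp t' hts.fst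
    obtain ⟨s, rfl⟩ := hp s hts.snd.fst
    rw [hA] at hvz hts
    rw [hlev, hlev, hlev, hlev, hB]
    exact hI'.nc v (hall v) z (hall z) t' (hall t') s (hall s) hvz hts
  · intro v z hv hz hzv hvz
    obtain ⟨v, rfl⟩ := hp v hv
    obtain ⟨z, rfl⟩ := hp z hz
    rw [hlev, hlev] at hzv
    rw [hA] at hvz
    rw [hlev, hlev]
    have hzO : z ∈ O := by
      rcases hO z with rfl | h
      · rcases hO v with rfl | h'
        · omega
        · have := hτt v h'
          omega
      · exact h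
    rcases hO v with rfl | hvO
    · rw [hadj z hzO, hI.vis z hzO] at hvz
      push Not at hvz
      obtain ⟨t', ht', s, hs, k1, k2, k3, k4⟩ := hvz
      refine Or.inr ⟨p t', p s, (hA t' s).2 k1, ?_, ?_, ?_, (hB s z t').2 k4⟩
      · rw [hlev, hlev]; exact k2
      · rw [hlev]; exact hτt t' ht'
      · rw [hlev]; exact k3
    · rcases hI.max v hvO z hzO hzv hvz with
        ⟨s, hs, k1, k2, k3⟩ | ⟨t', ht', s, hs, k1, k2, k3, k4, k5⟩
      · left
        rcases k3 with k3 | ⟨t', ht', k3, k4⟩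
        · refine ⟨p t, p s, (hA t s).2 ((hadj s hs).2 k3), ?_, ?_, (hB z s v).2 k2⟩
          · rw [hlev]; exact k1
          · rw [hlev]; exact hτt v hvO
        · refine ⟨p t', p s, (hA t' s).2 k3, ?_, ?_, (hB z s v).2 k2⟩
          · rw [hlev]; exact k1
          · rw [hlev]; exact k4
      · right
        refine ⟨p t', p s, (hA t' s).2 k1, ?_, ?_, ?_, (hB s z t').2 k5⟩
        · rw [hlev, hlev]; exact k2
        · rw [hlev]; exact k3
        · rw [hlev]; exact k4
  · intro v z hv hz hzv hw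
    obtain ⟨v, rfl⟩ := hp v hv
    obtain ⟨z, rfl⟩ := hp z hz
    rw [hlev, hlev] at hzv
    rw [hA]
    refine hI'.good v (hall v) z (hall z) hzv fun w _ hb => ?_
    have := hw (p w) ((hB z w v).2 hb)
    rwa [hlev, hlev] at this
  · intro a ha
    obtain ⟨w, rfl⟩ := hp a (by omega)
    rw [← hpt, hlev, hlev]
    rcases hO w with rfl | h
    · omega
    · exact hτt w h

end Pool.Agent.MP7a5e6cPORD
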