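import Pool.Agent.Lib.MP_7a5e6c_co_PORD.Defs

/-!
# Kraft sums of interval systems

Proof of `kraft_le`: strong induction on `b - a`. If `b = a + 1`, the sum is one term with
`cnt = 0`. Otherwise take the `m` of `hK a b`. For `i` in `[a, m)` the count for `(a, b)` is at
least `1 +` the count for `(a, m)` (the intervals of `(a, m)` and the one of `m`, which contains
all gaps), similarly for `[m, b)`. By induction the sum is at most `1 / 2 + 1 / 2`.

`node_kraft`: induction on `Node`. In the case `node a m b` all intervals of points of `(a, m)` lie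
in `[a, m]`, those of `(m, b)` in `[m, b]`, the one of `m` is `[a, b]`; so the counts are exactly
`1 +` the counts of the halves.

`node_compare`: write `d i = cnt l₀ r₀ a b i`, `u i = cnt l r a b i`, `g i = (1 / 2) ^ d i`. By
telescoping and exchange of sums (all intervals lie in `[a, b]`) the two sums are
`∑ g i * d i` and `∑ g i * u i` over `i ∈ [a, b)`. For integers `z`: `2 ^ (-z) ≥ 1 - z` and
`2 ^ (-z) ≥ 1 - z / 2`, and both are equalities only if `z = 0`. With `z = u i - d i`: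
`1 ≥ ∑ 2 ^ (-u i) = ∑ g i 2 ^ (-z) ≥ ∑ g i (1 - z) = 1 - ∑ g i (u i - d i)`, so the inequality
holds; if the sums are equal, then `∑ g i (2 ^ (-z) - 1 + z) ≤ 0` and
`∑ g i (2 ^ (-z) - 1 + z / 2) ≤ 0`, all terms are zero, so `u i = d i` for all `i`.
From `u = d` on `[a, b)` one shows by induction on `Node` that `l m ≤ l₀ m` and `r₀ m ≤ r m` for
all `m`: let `m₀` be the root of the node and `v` the point of `hK a b`. The sum of
`2 ^ (-u i)` over `[a, v)` is `≤ 1 / 2` (`kraft_le` for `(a, v)`, the interval of `v` counts 1) and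
the same for `[v, b)`; the sums of `2 ^ (-d i)` over `[a, m₀)` and `[m₀, b)` are `1 / 2`. As all
terms are positive, `v = m₀`. So `l m₀ ≤ a`, `b ≤ r m₀`. For `i ∈ [a, m₀)` we have
`1 + cnt l r a m₀ i ≤ u i = d i = 1 + cnt l₀ r₀ a m₀ i`, and by the first part for `(a, m₀)`
(or by `kraft_le` and positivity) there is equality. Use the induction hypothesis. (It is
convenient to make the induction statement: Node, hK, and `cnt l r a b i ≤ cnt l₀ r₀ a b i` for all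
gaps imply `l m ≤ l₀ m ∧ r₀ m ≤ r m` on `(a, b)`.)
Finally `X` is strictly increasing on `[a, b]`, so each term `X (r m) - X (l m)` is at least
`X (r₀ m) - X (l₀ m)`, with equality of the sums all are equal and `l m = l₀ m`, `r m = r₀ m`.
-/

namespace Pool.Agent.MP7a5e6cPORD

private theorem cnt_left {l r : ℕ → ℕ} {a m b i : ℕ} (h1 : a < m) (h2 : m < b)
    (hl : l m ≤ a) (hr : b ≤ r m) (hi : a ≤ i) (hi2 : i < m) :
    cnt l r a m i + 1 ≤ cnt l r a b i := by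
  unfold cnt
  have hm : m ∉ (Finset.Ioo a m).filter fun k ↦ l k ≤ i ∧ i < r k := by simp
  rw [← Finset.card_insert_of_notMem hm]
  apply Finset.card_le_card
  intro k hk
  simp only [Finset.mem_insert, Finset.mem_filter, Finset.mem_Ioo] at hk ⊢
  rcases hk with rfl | ⟨⟨hk1, hk2⟩, hk3⟩
  · exact ⟨⟨h1, h2⟩, by omega, by omega⟩
  · exact ⟨⟨hk1, by omega⟩, hk3⟩

private theorem cnt_right {l r : ℕ → ℕ} {a m b i : ℕ} (h1 : a < m) (h2 : m < b)
    (hl : l m ≤ a) (hr : b ≤ r m) (hi : m ≤ i) (hi2 : i < b) :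
    cnt l r m b i + 1 ≤ cnt l r a b i := by
  unfold cnt
  have hm : m ∉ (Finset.Ioo m b).filter fun k ↦ l k ≤ i ∧ i < r k := by simp
  rw [← Finset.card_insert_of_notMem hm]
  apply Finset.card_le_card
  intro k hk
  simp only [Finset.mem_insert, Finset.mem_filter, Finset.mem_Ioo] at hk ⊢
  rcases hk with rfl | ⟨⟨hk1, hk2⟩, hk3⟩
  · exact ⟨⟨h1, h2⟩, by omega, by omega⟩
  · exact ⟨⟨by omega, hk2⟩, hk3⟩

private theorem half_pow_le {x y : ℕ} (h : x ≤ y) : (1 / 2 : ℝ) ^ y ≤ (1 / 2 : ℝ) ^ x :=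
  pow_le_pow_of_le_one (by norm_num) (by norm_num) h

private theorem half_pow_pos (x : ℕ) : 0 < (1 / 2 : ℝ) ^ x := by positivity

theorem kraft_le (l r : ℕ → ℕ) (a b : ℕ) (hab : a < b)
    (hK : ∀ c d, a ≤ c → d ≤ b → c + 1 < d → ∃ m, c < m ∧ m < d ∧ l m ≤ c ∧ d ≤ r m) :
    ∑ i ∈ Finset.Ico a b, (1 / 2 : ℝ) ^ cnt l r a b i ≤ 1 := by
  obtain ⟨k, hk⟩ : ∃ k, b - a ≤ k := ⟨_, le_rfl⟩
  induction k generalizing a b with
  | zero => omega
  | succ k ih =>
    by_cases h1 : a + 1 = b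
    · subst h1
      rw [Nat.Ico_succ_singleton, Finset.sum_singleton]
      exact pow_le_one₀ (by norm_num) (by norm_num)
    · obtain ⟨m, ham, hmb, hl, hr⟩ := hK a b le_rfl le_rfl (by omega)
      have e1 := ih a m ham (fun c d hc hd hcd => hK c d hc (by omega) hcd) (by omega)
      have e2 := ih m b hmb (fun c d hc hd hcd => hK c d (by omega) hd hcd) (by omega)
      have e3 : ∑ i ∈ Finset.Ico a m, (1 / 2 : ℝ) ^ cnt l r a b i ≤
          ∑ i ∈ Finset.Ico a m, (1 / 2) * (1 / 2 : ℝ) ^ cnt l r a m i := by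
        refine Finset.sum_le_sum fun i hi => ?_
        rw [Finset.mem_Ico] at hi
        rw [← pow_succ']
        exact half_pow_le (cnt_left ham hmb hl hr hi.1 hi.2)
      have e4 : ∑ i ∈ Finset.Ico m b, (1 / 2 : ℝ) ^ cnt l r a b i ≤
          ∑ i ∈ Finset.Ico m b, (1 / 2) * (1 / 2 : ℝ) ^ cnt l r m b i := by
        refine Finset.sum_le_sum fun i hi => ?_
        rw [Finset.mem_Ico] at hi
        rw [← pow_succ']
        exact half_pow_le (cnt_right ham hmb hl hr hi.1 hi.2)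
      rw [← Finset.mul_sum] at e3 e4
      rw [← Finset.sum_Ico_consecutive _ ham.le hmb.le]
      linarith

private theorem cnt_left_eq {l r : ℕ → ℕ} {a m b i : ℕ} (h1 : a < m) (h2 : m < b)
    (hl : l m = a) (hr : r m = b) (hi : a ≤ i) (hi2 : i < m)
    (hin : ∀ k, m < k → k < b → m ≤ l k) : cnt l r a b i = cnt l r a m i + 1 := by
  refine le_antisymm ?_ (cnt_left h1 h2 hl.le hr.ge hi hi2)
  unfold cnt
  have hm : m ∉ (Finset.Ioo a m).filter fun k ↦ l k ≤ i ∧ i < r k := by simp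
  rw [← Finset.card_insert_of_notMem hm]
  apply Finset.card_le_card
  intro k hk
  simp only [Finset.mem_insert, Finset.mem_filter, Finset.mem_Ioo] at hk ⊢
  obtain ⟨⟨hk1, hk2⟩, hk3, hk4⟩ := hk
  rcases lt_trichotomy k m with h | h | h
  · exact Or.inr ⟨⟨hk1, h⟩, hk3, hk4⟩
  · exact Or.inl h
  · have := hin k h hk2
    omega

private theorem cnt_right_eq {l r : ℕ → ℕ} {a m b i : ℕ} (h1 : a < m) (h2 : m < b)
    (hl : l m = a) (hr : r m = b) (hi : m ≤ i) (hi2 : i < b)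
    (hin : ∀ k, a < k → k < m → r k ≤ m) : cnt l r a b i = cnt l r m b i + 1 := by
  refine le_antisymm ?_ (cnt_right h1 h2 hl.le hr.ge hi hi2)
  unfold cnt
  have hm : m ∉ (Finset.Ioo m b).filter fun k ↦ l k ≤ i ∧ i < r k := by simp
  rw [← Finset.card_insert_of_notMem hm]
  apply Finset.card_le_card
  intro k hk
  simp only [Finset.mem_insert, Finset.mem_filter, Finset.mem_Ioo] at hk ⊢
  obtain ⟨⟨hk1, hk2⟩, hk3, hk4⟩ := hk
  rcases lt_trichotomy k m with h | h | h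
  · have := hin k hk1 h
    omega
  · exact Or.inl h
  · exact Or.inr ⟨⟨h, hk2⟩, hk3, hk4⟩

theorem node_kraft {l r : ℕ → ℕ} {a b : ℕ} (h : Node l r a b) :
    a < b ∧ (∀ m, a < m → m < b → a ≤ l m ∧ l m < m ∧ m < r m ∧ r m ≤ b) ∧
      ∑ i ∈ Finset.Ico a b, (1 / 2 : ℝ) ^ cnt l r a b i = 1 := by
  induction h with
  | leaf a =>
    refine ⟨by omega, fun m h1 h2 => by omega, ?_⟩
    rw [Nat.Ico_succ_singleton, Finset.sum_singleton]
    have : cnt l r a (a + 1) a = 0 := by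
      unfold cnt
      rw [Finset.card_eq_zero, Finset.filter_eq_empty_iff]
      intro k hk
      rw [Finset.mem_Ioo] at hk
      omega
    rw [this, pow_zero]
  | node a m b h1 h2 hl hr ha hb iha ihb =>
    obtain ⟨-, ia, sa⟩ := iha
    obtain ⟨-, ib, sb⟩ := ihb
    refine ⟨by omega, fun k hk1 hk2 => ?_, ?_⟩
    · rcases lt_trichotomy k m with h | h | h
      · obtain ⟨h3, h4, h5, h6⟩ := ia k hk1 h
        exact ⟨h3, h4, h5, by omega⟩
      · subst h
        exact ⟨hl.ge, by omega, by omega, hr.le⟩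
      · obtain ⟨h3, h4, h5, h6⟩ := ib k h hk2
        exact ⟨by omega, h4, h5, h6⟩
    · have e3 : ∑ i ∈ Finset.Ico a m, (1 / 2 : ℝ) ^ cnt l r a b i =
          ∑ i ∈ Finset.Ico a m, (1 / 2) * (1 / 2 : ℝ) ^ cnt l r a m i := by
        refine Finset.sum_congr rfl fun i hi => ?_
        rw [Finset.mem_Ico] at hi
        rw [← pow_succ', cnt_left_eq h1 h2 hl hr hi.1 hi.2 fun k hk hk' => (ib k hk hk').1]
      have e4 : ∑ i ∈ Finset.Ico m b, (1 / 2 : ℝ) ^ cnt l r a b i =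
          ∑ i ∈ Finset.Ico m b, (1 / 2) * (1 / 2 : ℝ) ^ cnt l r m b i := by
        refine Finset.sum_congr rfl fun i hi => ?_
        rw [Finset.mem_Ico] at hi
        rw [← pow_succ', cnt_right_eq h1 h2 hl hr hi.1 hi.2
          fun k hk hk' => (ia k hk hk').2.2.2]
      rw [← Finset.mul_sum, sa] at e3
      rw [← Finset.mul_sum, sb] at e4
      rw [← Finset.sum_Ico_consecutive _ h1.le h2.le, e3, e4]
      norm_num

private theorem X_sub {a b : ℕ} {X g : ℕ → ℝ}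
    (hX : ∀ i, a ≤ i → i < b → X (i + 1) - X i = g i) {p q : ℕ} (hp : a ≤ p) (hpq : p ≤ q)
    (hq : q ≤ b) : X q - X p = ∑ i ∈ Finset.Ico p q, g i := by
  rw [← Finset.sum_Ico_sub _ hpq]
  refine Finset.sum_congr rfl fun i hi => ?_
  rw [Finset.mem_Ico] at hi
  exact hX i (by omega) (by omega)

private theorem sum_len {l r : ℕ → ℕ} {a b : ℕ} {X g : ℕ → ℝ}
    (hin : ∀ m, a < m → m < b → a ≤ l m ∧ l m < m ∧ m < r m ∧ r m ≤ b)
    (hX : ∀ i, a ≤ i → i < b → X (i + 1) - X i = g i) :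
    ∑ m ∈ Finset.Ioo a b, (X (r m) - X (l m)) =
      ∑ i ∈ Finset.Ico a b, g i * (cnt l r a b i : ℝ) := by
  have h1 : ∀ m ∈ Finset.Ioo a b, X (r m) - X (l m) =
      ∑ i ∈ Finset.Ico a b, if l m ≤ i ∧ i < r m then g i else 0 := by
    intro m hm
    rw [Finset.mem_Ioo] at hm
    obtain ⟨h2, h3, h4, h5⟩ := hin m hm.1 hm.2
    rw [X_sub hX h2 (by omega) h5, ← Finset.sum_filter]
    refine Finset.sum_congr ?_ fun _ _ => rfl
    ext i
    simp only [Finset.mem_Ico, Finset.mem_filter]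
    omega
  rw [Finset.sum_congr rfl h1, Finset.sum_comm]
  refine Finset.sum_congr rfl fun i _ => ?_
  rw [← Finset.sum_filter, Finset.sum_const, nsmul_eq_mul, mul_comm]
  rfl

private theorem key1 (u d : ℕ) : (1 / 2 : ℝ) ^ d * (1 - ((u : ℝ) - d)) ≤ (1 / 2 : ℝ) ^ u ∧
    ((1 / 2 : ℝ) ^ d * (1 - ((u : ℝ) - d)) = (1 / 2 : ℝ) ^ u → u ≤ d) := by
  have hd := half_pow_pos d
  rcases le_total d u with h | h
  · obtain ⟨k, rfl⟩ := Nat.exists_eq_add_of_le h
    rcases Nat.eq_zero_or_pos k with rfl | hk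
    · simp
    · have hk1 : (1 : ℝ) ≤ k := by exact_mod_cast hk
      have h2 : (1 / 2 : ℝ) ^ d * (1 - (((d + k : ℕ) : ℝ) - d)) ≤ 0 := by
        push_cast
        apply mul_nonpos_of_nonneg_of_nonpos hd.le
        linarith
      have h3 := half_pow_pos (d + k)
      exact ⟨by linarith, fun h4 => by linarith⟩
  · refine ⟨?_, fun _ => h⟩
    obtain ⟨k, rfl⟩ := Nat.exists_eq_add_of_le h
    have h2 : (1 + (k : ℝ)) ≤ 2 ^ k := by
      have := one_add_mul_le_pow (a := (1 : ℝ)) (by norm_num) k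
      norm_num at this
      linarith
    have h3 : (1 / 2 : ℝ) ^ u = (1 / 2 : ℝ) ^ (u + k) * 2 ^ k := by
      rw [pow_add, mul_assoc, ← mul_pow]
      norm_num
    rw [h3]
    push_cast
    apply mul_le_mul_of_nonneg_left _ (half_pow_pos (u + k)).le
    linarith

private theorem key2 (u d : ℕ) : (1 / 2 : ℝ) ^ d * (1 - ((u : ℝ) - d) / 2) ≤ (1 / 2 : ℝ) ^ u ∧
    ((1 / 2 : ℝ) ^ d * (1 - ((u : ℝ) - d) / 2) = (1 / 2 : ℝ) ^ u → d ≤ u) := by
  have hd := half_pow_pos d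
  rcases le_total d u with h | h
  · refine ⟨?_, fun _ => h⟩
    obtain ⟨k, rfl⟩ := Nat.exists_eq_add_of_le h
    rcases Nat.lt_or_ge k 2 with hk | hk
    · interval_cases k
      · simp
      · rw [pow_succ]
        push_cast
        apply le_of_eq
        ring
    · have hk1 : (2 : ℝ) ≤ k := by exact_mod_cast hk
      have h2 : (1 / 2 : ℝ) ^ d * (1 - (((d + k : ℕ) : ℝ) - d) / 2) ≤ 0 := by
        push_cast
        apply mul_nonpos_of_nonneg_of_nonpos hd.le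
        linarith
      exact h2.trans (half_pow_pos (d + k)).le
  · obtain ⟨k, rfl⟩ := Nat.exists_eq_add_of_le h
    have h2 : (1 + (k : ℝ)) ≤ 2 ^ k := by
      have := one_add_mul_le_pow (a := (1 : ℝ)) (by norm_num) k
      norm_num at this
      linarith
    have h3 : (1 / 2 : ℝ) ^ u = (1 / 2 : ℝ) ^ (u + k) * 2 ^ k := by
      rw [pow_add, mul_assoc, ← mul_pow]
      norm_num
    have hk0 : (0 : ℝ) ≤ k := Nat.cast_nonneg k
    rw [h3]
    push_cast
    constructor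
    · apply mul_le_mul_of_nonneg_left _ (half_pow_pos (u + k)).le
      linarith
    · intro h4
      have h5 := mul_left_cancel₀ (half_pow_pos (u + k)).ne' h4
      have h6 : (k : ℝ) ≤ 0 := by linarith
      have h7 : (k : ℝ) = 0 := le_antisymm h6 hk0
      have h8 : k = 0 := by exact_mod_cast h7
      omega

private theorem node_le {l₀ r₀ l r : ℕ → ℕ} {a b : ℕ} (h : Node l₀ r₀ a b)
    (hK : ∀ c d, a ≤ c → d ≤ b → c + 1 < d → ∃ m, c < m ∧ m < d ∧ l m ≤ c ∧ d ≤ r m)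
    (hle : ∀ i, a ≤ i → i < b → cnt l r a b i ≤ cnt l₀ r₀ a b i) :
    ∀ m, a < m → m < b → l m ≤ l₀ m ∧ r₀ m ≤ r m := by
  induction h with
  | leaf a => intro m h1 h2; omega
  | node a m₀ b h1 h2 hl hr ha hb iha ihb =>
    obtain ⟨-, ia, sa⟩ := node_kraft ha
    obtain ⟨-, ib, sb⟩ := node_kraft hb
    have cl : ∀ i, a ≤ i → i < m₀ → cnt l₀ r₀ a b i = cnt l₀ r₀ a m₀ i + 1 := fun i hi hi' =>
      cnt_left_eq h1 h2 hl hr hi hi' fun k hk hk' => (ib k hk hk').1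
    have cr : ∀ i, m₀ ≤ i → i < b → cnt l₀ r₀ a b i = cnt l₀ r₀ m₀ b i + 1 := fun i hi hi' =>
      cnt_right_eq h1 h2 hl hr hi hi' fun k hk hk' => (ia k hk hk').2.2.2
    have tl : ∑ i ∈ Finset.Ico a m₀, (1 / 2 : ℝ) ^ cnt l₀ r₀ a b i = 1 / 2 := by
      have : ∑ i ∈ Finset.Ico a m₀, (1 / 2 : ℝ) ^ cnt l₀ r₀ a b i =
          ∑ i ∈ Finset.Ico a m₀, (1 / 2) * (1 / 2 : ℝ) ^ cnt l₀ r₀ a m₀ i := by
        refine Finset.sum_congr rfl fun i hi => ?_
        rw [Finset.mem_Ico] at hi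
        rw [← pow_succ', cl i hi.1 hi.2]
      rw [this, ← Finset.mul_sum, sa, mul_one]
    have tr : ∑ i ∈ Finset.Ico m₀ b, (1 / 2 : ℝ) ^ cnt l₀ r₀ a b i = 1 / 2 := by
      have : ∑ i ∈ Finset.Ico m₀ b, (1 / 2 : ℝ) ^ cnt l₀ r₀ a b i =
          ∑ i ∈ Finset.Ico m₀ b, (1 / 2) * (1 / 2 : ℝ) ^ cnt l₀ r₀ m₀ b i := by
        refine Finset.sum_congr rfl fun i hi => ?_
        rw [Finset.mem_Ico] at hi
        rw [← pow_succ', cr i hi.1 hi.2]
      rw [this, ← Finset.mul_sum, sb, mul_one]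
    obtain ⟨v, hav, hvb, hlv, hrv⟩ := hK a b le_rfl le_rfl (by omega)
    have hv : v = m₀ := by
      rcases lt_trichotomy v m₀ with hlt | heq | hgt
      · exfalso
        have k1 := kraft_le l r v b hvb fun c d hc hd hcd => hK c d (by omega) hd hcd
        have k2 : ∑ i ∈ Finset.Ico v b, (1 / 2 : ℝ) ^ cnt l₀ r₀ a b i ≤
            ∑ i ∈ Finset.Ico v b, (1 / 2) * (1 / 2 : ℝ) ^ cnt l r v b i := by
          refine Finset.sum_le_sum fun i hi => ?_
          rw [Finset.mem_Ico] at hi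
          rw [← pow_succ']
          exact half_pow_le ((cnt_right hav hvb hlv hrv hi.1 hi.2).trans
            (hle i (by omega) hi.2))
        rw [← Finset.mul_sum] at k2
        rw [← Finset.sum_Ico_consecutive _ hlt.le h2.le, tr] at k2
        have k3 : 0 < ∑ i ∈ Finset.Ico v m₀, (1 / 2 : ℝ) ^ cnt l₀ r₀ a b i :=
          Finset.sum_pos (fun i _ => half_pow_pos _) ⟨v, by simp [hlt]⟩
        linarith
      · exact heq
      · exfalso
        have k1 := kraft_le l r a v hav fun c d hc hd hcd => hK c d hc (by omega) hcd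
        have k2 : ∑ i ∈ Finset.Ico a v, (1 / 2 : ℝ) ^ cnt l₀ r₀ a b i ≤
            ∑ i ∈ Finset.Ico a v, (1 / 2) * (1 / 2 : ℝ) ^ cnt l r a v i := by
          refine Finset.sum_le_sum fun i hi => ?_
          rw [Finset.mem_Ico] at hi
          rw [← pow_succ']
          exact half_pow_le ((cnt_left hav hvb hlv hrv hi.1 hi.2).trans
            (hle i hi.1 (by omega)))
        rw [← Finset.mul_sum] at k2
        rw [← Finset.sum_Ico_consecutive _ h1.le hgt.le, tl] at k2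
        have k3 : 0 < ∑ i ∈ Finset.Ico m₀ v, (1 / 2 : ℝ) ^ cnt l₀ r₀ a b i :=
          Finset.sum_pos (fun i _ => half_pow_pos _) ⟨m₀, by simp [hgt]⟩
        linarith
    subst hv
    have qa := iha (fun c d hc hd hcd => hK c d hc (by omega) hcd) (fun i hi hi' => by
      have e1 := cnt_left hav hvb hlv hrv hi hi'
      have e2 := hle i hi (by omega)
      rw [cl i hi hi'] at e2
      omega)
    have qb := ihb (fun c d hc hd hcd => hK c d (by omega) hd hcd) (fun i hi hi' => by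
      have e1 := cnt_right hav hvb hlv hrv hi hi'
      have e2 := hle i (by omega) hi'
      rw [cr i hi hi'] at e2
      omega)
    intro k hk1 hk2
    rcases lt_trichotomy k v with h | h | h
    · exact qa k hk1 h
    · subst h
      exact ⟨by omega, by omega⟩
    · exact qb k h hk2

theorem node_compare {l₀ r₀ l r : ℕ → ℕ} {a b : ℕ} (h : Node l₀ r₀ a b)
    (hK : ∀ c d, a ≤ c → d ≤ b → c + 1 < d → ∃ m, c < m ∧ m < d ∧ l m ≤ c ∧ d ≤ r m)
    (hin : ∀ m, a < m → m < b → a ≤ l m ∧ l m < m ∧ m < r m ∧ r m ≤ b)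
    (X : ℕ → ℝ)
    (hX : ∀ i, a ≤ i → i < b → X (i + 1) - X i = (1 / 2 : ℝ) ^ cnt l₀ r₀ a b i) :
    ∑ m ∈ Finset.Ioo a b, (X (r₀ m) - X (l₀ m)) ≤ ∑ m ∈ Finset.Ioo a b, (X (r m) - X (l m)) ∧
    (∑ m ∈ Finset.Ioo a b, (X (r₀ m) - X (l₀ m)) = ∑ m ∈ Finset.Ioo a b, (X (r m) - X (l m)) →
      ∀ m, a < m → m < b → l m = l₀ m ∧ r m = r₀ m) := by
  obtain ⟨hab, hin₀, hs₀⟩ := node_kraft h
  have hs := kraft_le l r a b hab hK
  have e0 := sum_len hin₀ hX
  have e1 := sum_len hin hX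
  have n1 : 0 ≤ ∑ i ∈ Finset.Ico a b, ((1 / 2 : ℝ) ^ cnt l r a b i -
      (1 / 2 : ℝ) ^ cnt l₀ r₀ a b i * (1 - ((cnt l r a b i : ℝ) - cnt l₀ r₀ a b i))) :=
    Finset.sum_nonneg fun i _ => sub_nonneg.2 (key1 _ _).1
  have n2 : 0 ≤ ∑ i ∈ Finset.Ico a b, ((1 / 2 : ℝ) ^ cnt l r a b i -
      (1 / 2 : ℝ) ^ cnt l₀ r₀ a b i * (1 - ((cnt l r a b i : ℝ) - cnt l₀ r₀ a b i) / 2)) :=
    Finset.sum_nonneg fun i _ => sub_nonneg.2 (key2 _ _).1
  have s1 : ∑ i ∈ Finset.Ico a b, ((1 / 2 : ℝ) ^ cnt l r a b i -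
      (1 / 2 : ℝ) ^ cnt l₀ r₀ a b i * (1 - ((cnt l r a b i : ℝ) - cnt l₀ r₀ a b i))) =
      ∑ i ∈ Finset.Ico a b, (1 / 2 : ℝ) ^ cnt l r a b i -
        ∑ i ∈ Finset.Ico a b, (1 / 2 : ℝ) ^ cnt l₀ r₀ a b i +
        (∑ m ∈ Finset.Ioo a b, (X (r m) - X (l m)) -
          ∑ m ∈ Finset.Ioo a b, (X (r₀ m) - X (l₀ m))) := by
    rw [e0, e1, ← Finset.sum_sub_distrib, ← Finset.sum_sub_distrib,
      ← Finset.sum_add_distrib]
    exact Finset.sum_congr rfl fun i _ => by ring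
  have s2 : ∑ i ∈ Finset.Ico a b, ((1 / 2 : ℝ) ^ cnt l r a b i -
      (1 / 2 : ℝ) ^ cnt l₀ r₀ a b i * (1 - ((cnt l r a b i : ℝ) - cnt l₀ r₀ a b i) / 2)) =
      ∑ i ∈ Finset.Ico a b, (1 / 2 : ℝ) ^ cnt l r a b i -
        ∑ i ∈ Finset.Ico a b, (1 / 2 : ℝ) ^ cnt l₀ r₀ a b i +
        (∑ m ∈ Finset.Ioo a b, (X (r m) - X (l m)) -
          ∑ m ∈ Finset.Ioo a b, (X (r₀ m) - X (l₀ m))) / 2 := by
    rw [e0, e1, ← Finset.sum_sub_distrib, ← Finset.sum_sub_distrib, Finset.sum_div,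
      ← Finset.sum_add_distrib]
    exact Finset.sum_congr rfl fun i _ => by ring
  refine ⟨by linarith, fun heq m hm1 hm2 => ?_⟩
  have z1 : ∑ i ∈ Finset.Ico a b, ((1 / 2 : ℝ) ^ cnt l r a b i -
      (1 / 2 : ℝ) ^ cnt l₀ r₀ a b i * (1 - ((cnt l r a b i : ℝ) - cnt l₀ r₀ a b i))) = 0 := by
    linarith
  rw [Finset.sum_eq_zero_iff_of_nonneg fun i _ => sub_nonneg.2 (key1 _ _).1] at z1
  have hle : ∀ i, a ≤ i → i < b → cnt l r a b i ≤ cnt l₀ r₀ a b i := fun i h1 h2 =>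
    (key1 _ _).2 (by linarith [z1 i (Finset.mem_Ico.2 ⟨h1, h2⟩)])
  have hmono : ∀ p q, a ≤ p → p ≤ q → q ≤ b → X p ≤ X q ∧ (X q = X p → p = q) := by
    intro p q hp hpq hq
    have h1 := X_sub hX hp hpq hq
    constructor
    · have h2 : 0 ≤ ∑ i ∈ Finset.Ico p q, (1 / 2 : ℝ) ^ cnt l₀ r₀ a b i :=
        Finset.sum_nonneg fun i _ => (half_pow_pos _).le
      linarith
    · intro h3
      by_contra hne
      have h2 : 0 < ∑ i ∈ Finset.Ico p q, (1 / 2 : ℝ) ^ cnt l₀ r₀ a b i :=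
        Finset.sum_pos (fun i _ => half_pow_pos _) ⟨p, by
          rw [Finset.mem_Ico]
          omega⟩
      linarith
  have hll := node_le h hK hle
  have ht : ∀ k ∈ Finset.Ioo a b, X (r₀ k) - X (l₀ k) ≤ X (r k) - X (l k) := by
    intro k hk
    rw [Finset.mem_Ioo] at hk
    obtain ⟨g1, g2⟩ := hll k hk.1 hk.2
    obtain ⟨f1, f2, f3, f4⟩ := hin k hk.1 hk.2
    obtain ⟨f5, f6, f7, f8⟩ := hin₀ k hk.1 hk.2
    have := (hmono (l k) (l₀ k) f1 g1 (by omega)).1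
    have := (hmono (r₀ k) (r k) (by omega) g2 f4).1
    linarith
  have hm : m ∈ Finset.Ioo a b := Finset.mem_Ioo.2 ⟨hm1, hm2⟩
  have h5 := (Finset.sum_eq_sum_iff_of_le ht).1 heq m hm
  obtain ⟨g1, g2⟩ := hll m hm1 hm2
  obtain ⟨f1, f2, f3, f4⟩ := hin m hm1 hm2
  obtain ⟨f5, f6, f7, f8⟩ := hin₀ m hm1 hm2
  have q1 := hmono (l m) (l₀ m) f1 g1 (by omega)
  have q2 := hmono (r₀ m) (r m) (by omega) g2 f4
  exact ⟨q1.2 (by linarith [q1.1, q2.1]), (q2.2 (by linarith [q1.1, q2.1])).symm⟩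

end Pool.Agent.MP7a5e6cPORD
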