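import Pool.Agent.Lib.MP_7a5e6c_co_PORD.Weight
import Pool.Agent.Lib.MP_7a5e6c_co_PORD.Kraft

/-!
# A good triangulation of permutation type has the smallest horizontal length

The coordinates are chosen such that the gap `[i, i + 1]` has length `(1 / 2) ^ d`, where `d` is
the number of intervals of the tree of the good triangulation that contain it.
-/

open scoped Classical

namespace Pool.Agent.MP7a5e6cPORD

theorem core (n : ℕ) (hn : 2 ≤ n) (lev : ℕ → ℕ) (A₀ : ℕ → ℕ → Prop) (hA₀ : Tri n lev A₀)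
    (hg : Good n lev A₀) (hT : Top n lev) :
    ∃ X : ℕ → ℝ, StrictMono X ∧ ∀ A, Tri n lev A → A ≠ A₀ → hw n X A₀ < hw n X A := by
  obtain ⟨T₀, C₀, h₀⟩ := hA₀.choose_cov hT
  set l₀ : ℕ → ℕ := fun m ↦ min (C₀ m) (T₀ m) with hl₀
  set r₀ : ℕ → ℕ := fun m ↦ max (C₀ m) (T₀ m) with hr₀
  set X : ℕ → ℝ := fun k ↦ ∑ i ∈ Finset.range k, (1 / 2 : ℝ) ^ cnt l₀ r₀ 0 (n - 1) i with hXdef
  have hstep : ∀ i, X (i + 1) - X i = (1 / 2 : ℝ) ^ cnt l₀ r₀ 0 (n - 1) i := by
    intro i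
    simp only [hXdef, Finset.sum_range_succ]
    ring
  have hX : StrictMono X := by
    refine strictMono_nat_of_lt_succ fun i ↦ ?_
    have h1 := hstep i
    have h2 : (0 : ℝ) < (1 / 2 : ℝ) ^ cnt l₀ r₀ 0 (n - 1) i := by positivity
    linarith
  have hnode : Node l₀ r₀ 0 (n - 1) := by
    have h1 := tri_node hA₀ hg h₀ (n + 1) (n - 1) 0 (by omega) (by omega)
      (hA₀.adj_ends hT hn) (hT 0 (by omega)) (fun w hw ↦ by
        refine hT w ?_
        unfold Btw at hw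
        omega)
    have e1 : min 0 (n - 1) = 0 := by omega
    have e2 : max 0 (n - 1) = n - 1 := by omega
    rwa [e1, e2] at h1
  refine ⟨X, hX, fun A hA hne ↦ ?_⟩
  obtain ⟨T, C, hTC⟩ := hA.choose_cov hT
  have hK := tri_propK hA hTC
  have hcmp := node_compare (l := fun m ↦ min (C m) (T m)) (r := fun m ↦ max (C m) (T m)) hnode
    (fun c d _ hd hcd ↦ hK c d hd hcd) (fun m h1 h2 ↦ by
      have h3 := hTC m h1 h2
      have h4 := h3.bt
      have h5 := h3.tn
      have h6 := h3.vc.1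
      unfold Btw at h4
      omega) X (fun i _ _ ↦ hstep i)
  have hnear : ∀ t ∈ Finset.range n, (∑ z ∈ near n lev A₀ t, |X t - X z|) ≤
      ∑ z ∈ near n lev A t, |X t - X z| := fun t ht ↦
    (near_le hA hA₀ hg X hX (Finset.mem_range.1 ht)).1
  have hw1 := tri_weight hA hTC X hX
  have hw0 := tri_weight hA₀ h₀ X hX
  have hs := Finset.sum_le_sum hnear
  rw [hw1, hw0]
  by_contra hcon
  have e1 : (∑ t ∈ Finset.range n, ∑ z ∈ near n lev A₀ t, |X t - X z|) =
      ∑ t ∈ Finset.range n, ∑ z ∈ near n lev A t, |X t - X z| := by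
    have := hcmp.1
    simp only [hl₀, hr₀] at this
    linarith
  have e2 : (∑ m ∈ Finset.Ioo 0 (n - 1), (X (r₀ m) - X (l₀ m))) =
      ∑ m ∈ Finset.Ioo 0 (n - 1), (X (max (C m) (T m)) - X (min (C m) (T m))) := by
    have := hcmp.1
    simp only [hl₀, hr₀] at this ⊢
    linarith
  have h1 := (Finset.sum_eq_sum_iff_of_le hnear).1 e1
  have h2 := hcmp.2 e2
  refine hne (tri_eq hA hA₀ fun a b hl hab ↦ ?_)
  have ha := hA₀.lt a b hab
  have hb : b ∈ back n lev A₀ a := by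
    unfold back
    exact Finset.mem_filter.2 ⟨Finset.mem_range.2 (hA₀.lt' hab), hab, hl⟩
  rw [back_eq hA₀ h₀ ha] at hb
  rcases Finset.mem_union.1 hb with h3 | h3
  · exact hA.adj_near ha
      ((near_le hA hA₀ hg X hX ha).2 (h1 a (Finset.mem_range.2 ha)) h3)
  · simp only [Finset.mem_image, Finset.mem_filter, Finset.mem_Ioo] at h3
    obtain ⟨m, ⟨⟨h4, h5⟩, rfl⟩, rfl⟩ := h3
    obtain ⟨h6, h7⟩ := h2 m h4 h5
    simp only [hl₀, hr₀] at h6 h7
    have h8 := hTC m h4 h5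
    have h9 : (C m = C₀ m ∧ T m = T₀ m) ∨ (C m = T₀ m ∧ T m = C₀ m) := by omega
    rcases h9 with ⟨h10, h11⟩ | ⟨h10, h11⟩
    · rw [← h10, ← h11]
      exact h8.adj
    · rw [← h10, ← h11]
      exact hA.sym _ _ h8.adj

end Pool.Agent.MP7a5e6cPORD
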