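import Mathlib
import Pool.Agent.Lib.MP_7a5e6c_co_SEQ.Defs

/-!
# Path growth, and triangulations of point sets of permutation type
-/

open scoped Classical

namespace Pool.Agent.MP7a5e6cPORD

/-- `PathGrowth G O P U`: the graph `G` induces on the vertices in the list `O` (the newest one
first) a triangulated region with upper boundary path `U` and with a Hamiltonian path `P`; both
paths run from the left end to the right end of the region.

* `point`: one starts from a single vertex.
* `insert`: a new vertex `v` is put above the region and is joined exactly to the vertices of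
  a part `C = x, …, y` of consecutive vertices of the upper boundary; here `C` has to contain two
  consecutive vertices `a`, `b` of the upper boundary that are also consecutive on the
  Hamiltonian path. Then `v` is inserted between `a` and `b` into the Hamiltonian path and replaces
  the vertices of `C` strictly between `x` and `y` on the upper boundary.
* `right`: a new vertex `v` is put to the right of the right end and is joined exactly to the last
  part `x, …` of the upper boundary; it becomes the new right end.
* `flip`: left and right may be exchanged. -/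
inductive PathGrowth {V : Type*} (G : SimpleGraph V) : List V → List V → List V → Prop
  | point (a : V) : PathGrowth G [a] [a] [a]
  | insert (O P₁ P₂ U₁ U₂ C₁ C₂ : List V) (a b x y v : V)
      (h : PathGrowth G O (P₁ ++ a :: b :: P₂) (U₁ ++ (C₁ ++ a :: b :: C₂) ++ U₂)) (hv : v ∉ O)
      (hx : (C₁ ++ a :: b :: C₂).head? = some x) (hy : (C₁ ++ a :: b :: C₂).getLast? = some y)
      (hadj : ∀ w ∈ O, G.Adj v w ↔ w ∈ C₁ ++ a :: b :: C₂) :
      PathGrowth G (v :: O) (P₁ ++ a :: v :: b :: P₂) (U₁ ++ x :: v :: y :: U₂)
  | right (O P U₁ U₂ : List V) (x v : V)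
      (h : PathGrowth G O P (U₁ ++ x :: U₂)) (hv : v ∉ O)
      (hadj : ∀ w ∈ O, G.Adj v w ↔ w ∈ x :: U₂) :
      PathGrowth G (v :: O) (P ++ [v]) (U₁ ++ [x, v])
  | flip (O P U : List V) (h : PathGrowth G O P U) : PathGrowth G O P.reverse U.reverse

/-- `s` lies strictly between `a` and `b`. -/
def Btw (a s b : ℕ) : Prop := (a < s ∧ s < b) ∨ (b < s ∧ s < a)

/-- The combinatorial description of the triangulations `A` of the points
`(X a, ε * M ^ lev a)`, `a < n`, for `X` strictly increasing and `M` large: `nc` says that no two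
edges cross, `max` that every missing edge crosses an edge. -/
structure Tri (n : ℕ) (lev : ℕ → ℕ) (A : ℕ → ℕ → Prop) : Prop where
  inj : ∀ a b, a < n → b < n → lev a = lev b → a = b
  sym : ∀ a b, A a b → A b a
  lt : ∀ a b, A a b → a < n
  irr : ∀ a, ¬ A a a
  nc : ∀ v z t s, A v z → A t s → lev z < lev v → lev v < lev t → lev s < lev v → ¬ Btw z s v
  max : ∀ v z, v < n → z < n → lev z < lev v → ¬ A v z →
    (∃ t s, A t s ∧ lev s < lev v ∧ lev v < lev t ∧ Btw z s v) ∨
    (∃ t s, A t s ∧ lev s < lev t ∧ lev t < lev v ∧ lev z < lev t ∧ Btw s z t)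

/-- Every vertex is adjacent to the nearest older vertex on its left and on its right. -/
def Good (n : ℕ) (lev : ℕ → ℕ) (A : ℕ → ℕ → Prop) : Prop :=
  ∀ v z, v < n → z < n → lev z < lev v → (∀ w, Btw z w v → lev v < lev w) → A v z

/-- The vertex `n - 1` is the newest one. -/
def Top (n : ℕ) (lev : ℕ → ℕ) : Prop := ∀ a, a + 1 < n → lev a < lev (n - 1)

/-- Twice the sum of the horizontal lengths of all edges. -/
noncomputable def hw (n : ℕ) (X : ℕ → ℝ) (A : ℕ → ℕ → Prop) : ℝ :=
  ∑ a ∈ Finset.range n, ∑ b ∈ Finset.range n, if A a b then |X a - X b| else 0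

/-- The graph on `Fin n` as a relation on natural numbers. -/
def ext {n : ℕ} (E : SimpleGraph (Fin n)) (a b : ℕ) : Prop :=
  ∃ (ha : a < n) (hb : b < n), E.Adj ⟨a, ha⟩ ⟨b, hb⟩

/-- The points of the drawing. -/
noncomputable def pts (n : ℕ) (X : ℕ → ℝ) (lev : ℕ → ℕ) (M ε : ℝ) :
    Fin n → EuclideanSpace ℝ (Fin 2) :=
  fun i ↦ !₂[X i, ε * M ^ lev i]

/-- Binary trees of intervals: the interval `[a, b]` is split at `m`, where `l m = a`,
`r m = b`. -/
inductive Node (l r : ℕ → ℕ) : ℕ → ℕ → Prop
  | leaf (a : ℕ) : Node l r a (a + 1)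
  | node (a m b : ℕ) (h1 : a < m) (h2 : m < b) (hl : l m = a) (hr : r m = b)
      (ha : Node l r a m) (hb : Node l r m b) : Node l r a b

/-- The number of intervals `[l m, r m]`, `a < m < b`, that contain the gap `[i, i + 1]`. -/
def cnt (l r : ℕ → ℕ) (a b i : ℕ) : ℕ :=
  ((Finset.Ioo a b).filter fun m ↦ l m ≤ i ∧ i < r m).card

end Pool.Agent.MP7a5e6cPORD
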