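import Pool.Agent.Lib.MP_7a5e6c_co_PORD.Defs
import Pool.Agent.Lib.MP_7a5e6c_co_PO.Geo

/-!
# The geometry of the drawing

The newest of three points lies above the line through the other two, so two edges with older
ends `z`, `s` and newer ends `v`, `t` (`v` older than `t`) cross iff `s` is older than `v` and
lies strictly between `z` and `v` horizontally.
-/

open scoped Classical
open Pool.Agent.MP7a5e6cSEQ (IsTriangulation weight)

namespace Pool.Agent.MP7a5e6cPORD

/-- `m` is below the segment from `c` to `d`. -/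
def UndN (lev : ℕ → ℕ) (c d m : ℕ) : Prop := Btw c m d ∧ (lev m < lev c ∨ lev m < lev d)

/-- `m` is above the segment from `c` to `d`. -/
def OvrN (lev : ℕ → ℕ) (c d m : ℕ) : Prop := Btw c m d ∧ lev c < lev m ∧ lev d < lev m

/-- The crossing relation in terms of positions and times. -/
def CrN (lev : ℕ → ℕ) (a b c d : ℕ) : Prop :=
  ((UndN lev c d a ∨ UndN lev c d b) ∧ (UndN lev a b c ∨ UndN lev a b d)) ∨
  (UndN lev a b c ∧ OvrN lev a b d) ∨ (OvrN lev a b c ∧ UndN lev a b d) ∨
  (UndN lev c d a ∧ OvrN lev c d b) ∨ (OvrN lev c d a ∧ UndN lev c d b)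

private theorem btw_comm {a s b : ℕ} : Btw a s b ↔ Btw b s a := by
  unfold Btw
  omega

private theorem undN_comm {lev : ℕ → ℕ} {c d m : ℕ} : UndN lev c d m ↔ UndN lev d c m := by
  unfold UndN
  rw [btw_comm, or_comm]

private theorem ovrN_comm {lev : ℕ → ℕ} {c d m : ℕ} : OvrN lev c d m ↔ OvrN lev d c m := by
  unfold OvrN
  rw [btw_comm]
  tauto

private theorem ne_of_lev {lev : ℕ → ℕ} {a b : ℕ} (h : lev a < lev b) : a ≠ b := by
  rintro rfl
  omega

/-- Crossing in normal form. -/
private theorem crN_iff {lev : ℕ → ℕ} {z v s t : ℕ}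
    (h1 : lev z < lev v) (h2 : lev s < lev t) (h3 : lev v < lev t) :
    CrN lev z v s t ↔ lev s < lev v ∧ Btw z s v := by
  have e1 := ne_of_lev h3
  have e2 := ne_of_lev (h1.trans h3)
  constructor
  · rintro (⟨-, h | h⟩ | ⟨h, -⟩ | ⟨-, h⟩ | ⟨-, h⟩ | ⟨h, -⟩)
    · exact ⟨by rcases h.2 with h4 | h4 <;> omega, h.1⟩
    · rcases h.2 with h4 | h4 <;> omega
    · exact ⟨by rcases h.2 with h4 | h4 <;> omega, h.1⟩
    · rcases h.2 with h4 | h4 <;> omega
    · have := h.2.2
      omega
    · have := h.2.2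
      omega
  · rintro ⟨h4, h5⟩
    have hu : UndN lev z v s := ⟨h5, Or.inr h4⟩
    have h6 : Btw z t v ∨ Btw s v t ∨ Btw s z t := by
      unfold Btw at *
      omega
    rcases h6 with h6 | h6 | h6
    · exact Or.inr (Or.inl ⟨hu, h6, h1.trans h3, h3⟩)
    · exact Or.inl ⟨Or.inr ⟨h6, Or.inr h3⟩, Or.inl hu⟩
    · exact Or.inl ⟨Or.inl ⟨h6, Or.inr (h1.trans h3)⟩, Or.inl hu⟩

private theorem crN_same {lev : ℕ → ℕ} {z v s : ℕ}
    (h1 : lev z < lev v) (h2 : lev s < lev v) : ¬ CrN lev z v s v := by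
  have b1 : ∀ a b, ¬ Btw a b b := by
    intro a b
    unfold Btw
    omega
  rintro (⟨h | h, h' | h'⟩ | ⟨-, h⟩ | ⟨-, h⟩ | ⟨-, h⟩ | ⟨h, -⟩)
  · have h3 := h.1
    have h4 := h'.1
    unfold Btw at h3 h4
    omega
  · exact b1 _ _ h'.1
  · exact b1 _ _ h.1
  · exact b1 _ _ h.1
  · exact b1 _ _ h.1
  · exact b1 _ _ h.1
  · exact b1 _ _ h.1
  · have := h.2.2
    omega

private theorem crN_swapl {lev : ℕ → ℕ} {a b c d : ℕ} : CrN lev a b c d ↔ CrN lev b a c d := by
  unfold CrN
  rw [undN_comm (c := b) (d := a) (m := c), undN_comm (c := b) (d := a) (m := d),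
    ovrN_comm (c := b) (d := a) (m := c), ovrN_comm (c := b) (d := a) (m := d)]
  tauto

private theorem crN_comm {lev : ℕ → ℕ} {a b c d : ℕ} : CrN lev a b c d ↔ CrN lev c d a b := by
  unfold CrN
  tauto

private theorem crN_swapr {lev : ℕ → ℕ} {a b c d : ℕ} : CrN lev a b c d ↔ CrN lev a b d c := by
  rw [crN_comm, crN_swapl, crN_comm]

private theorem cr_iff {n : ℕ} {X : ℕ → ℝ} (hX : StrictMono X) (lev : ℕ → ℕ) (a b c d : Fin n) :
    MP7a5e6cPO.Cr (fun i : Fin n ↦ X i) (fun i ↦ lev i) a b c d ↔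
      CrN lev a b c d := by
  simp only [MP7a5e6cPO.Cr, MP7a5e6cPO.Und, MP7a5e6cPO.Ovr, MP7a5e6cPO.Btw, hX.lt_iff_lt, CrN,
    UndN, OvrN, Btw]

theorem tri_iff (n : ℕ) (X : ℕ → ℝ) (hX : StrictMono X) (lev : ℕ → ℕ)
    (hinj : ∀ a b, a < n → b < n → lev a = lev b → a = b) :
    ∃ M : ℝ, ∀ ε : ℝ, 0 < ε → Function.Injective (pts n X lev M ε) ∧
      ∀ E : SimpleGraph (Fin n),
        IsTriangulation (pts n X lev M ε) E ↔ Tri n lev (ext E) := by
  have hx : Function.Injective fun i : Fin n ↦ X i := fun i j h ↦ Fin.ext (hX.injective h)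
  have hτ : Function.Injective fun i : Fin n ↦ lev i := fun i j h ↦
    Fin.ext (hinj _ _ i.2 j.2 h)
  obtain ⟨M, _, hM⟩ := MP7a5e6cPO.geo (fun i : Fin n ↦ X i) hx (fun i ↦ lev i) hτ
  refine ⟨M, fun ε hε ↦ ?_⟩
  obtain ⟨g1, g2⟩ := hM ε hε
  have hpt : pts n X lev M ε =
      MP7a5e6cPO.pt (fun i : Fin n ↦ X i) (fun i ↦ lev i) M ε := rfl
  rw [← hpt] at g1 g2
  have hinjp : Function.Injective (pts n X lev M ε) := by
    intro i j h
    have h1 := congrArg (fun p : EuclideanSpace ℝ (Fin 2) ↦ p 0) h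
    simp only [pts] at h1
    refine hx ?_
    simpa using h1
  refine ⟨hinjp, fun E ↦ ?_⟩
  -- edges with distinguished older end
  have hE : ∀ a b : ℕ, ext E a b → ∃ (ha : a < n) (hb : b < n), E.Adj ⟨a, ha⟩ ⟨b, hb⟩ :=
    fun a b h ↦ h
  have hlt : ∀ a b : ℕ, ext E a b → a < n := fun a b h ↦ h.1
  have hlt' : ∀ a b : ℕ, ext E a b → b < n := fun a b h ↦ h.2.1
  have hsym : ∀ a b : ℕ, ext E a b → ext E b a := fun a b ⟨ha, hb, h⟩ ↦ ⟨hb, ha, h.symm⟩
  constructor
  · rintro ⟨-, hb, hc⟩
    refine ⟨hinj, hsym, hlt, fun a ⟨ha, hb, h⟩ ↦ E.loopless.irrefl _ h, ?_, ?_⟩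
    · intro v z t s hvz hts h1 h2 h3 h4
      have hts' : lev s < lev t := by omega
      obtain ⟨hv, hz, hvz'⟩ := hvz
      obtain ⟨ht, hs, hts''⟩ := hts
      have hne : s((⟨v, hv⟩ : Fin n), ⟨z, hz⟩) ≠ s(⟨t, ht⟩, ⟨s, hs⟩) := by
        intro he
        have h5 : (⟨t, ht⟩ : Fin n) ∈ s((⟨v, hv⟩ : Fin n), ⟨z, hz⟩) := by
          rw [he]
          exact Sym2.mem_mk_left _ _
        rcases Sym2.mem_iff.1 h5 with h6 | h6
        · have := congrArg (fun i : Fin n ↦ lev i) h6
          simp only at this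
          omega
        · have := congrArg (fun i : Fin n ↦ lev i) h6
          simp only at this
          omega
      have h5 := (g2 _ _ _ _ hvz'.ne hts''.ne hne).1 (hb _ _ _ _ hvz' hts'' hne)
      rw [cr_iff hX] at h5
      refine h5 ?_
      simp only
      rw [crN_swapl, crN_swapr, crN_iff h1 hts' h2]
      exact ⟨h3, h4⟩
    · intro v z hv hz hl hnadj
      by_contra hcon
      push Not at hcon
      refine hnadj ⟨hv, hz, hc _ _ ?_ (fun w h1 h2 ↦ g1 _ _ w h1 h2) ?_⟩
      · intro h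
        have := congrArg (fun i : Fin n ↦ lev i) h
        simp only at this
        omega
      · intro c d hcd hne
        have hvz : (⟨v, hv⟩ : Fin n) ≠ ⟨z, hz⟩ := by
          intro h
          have := congrArg (fun i : Fin n ↦ lev i) h
          simp only at this
          omega
        refine (g2 _ _ _ _ hvz hcd.ne hne).2 ?_
        rw [cr_iff hX]
        simp only
        -- reduce to `lev s < lev t`
        have key : ∀ s t : Fin n, E.Adj t s → lev s < lev t → ¬ CrN lev v z t s := by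
          intro s t hts h1 h2
          rcases lt_trichotomy (lev v) (lev t) with h3 | h3 | h3
          · rw [crN_swapl, crN_swapr, crN_iff hl h1 h3] at h2
            exact hcon.1 t s ⟨t.2, s.2, hts⟩ h2.1 h3 h2.2
          · have h4 : v = t := hinj _ _ hv t.2 h3
            rw [crN_swapl, crN_swapr, ← h4] at h2
            exact crN_same hl (by rw [h3]; exact h1) h2
          · rw [crN_comm, crN_swapl, crN_swapr, crN_iff h1 hl h3] at h2
            exact hcon.2 t s ⟨t.2, s.2, hts⟩ h1 h3 h2.1 h2.2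
        have hlne : lev c ≠ lev d := fun h ↦ hcd.ne (hτ h)
        rcases lt_or_gt_of_ne hlne with h1 | h1
        · rw [crN_swapr]
          exact key c d hcd.symm h1
        · exact key d c hcd h1
  · intro hT
    have hnc : ∀ z v s t : Fin n, E.Adj v z → E.Adj t s → lev z < lev v → lev s < lev t →
        ¬ CrN lev z v s t := by
      have key : ∀ z v s t : Fin n, E.Adj v z → E.Adj t s → lev z < lev v → lev s < lev t →
          lev v < lev t → ¬ CrN lev z v s t := by
        intro z v s t hvz hts h1 h2 h3 h4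
        rw [crN_iff h1 h2 h3] at h4
        exact hT.nc v z t s ⟨v.2, z.2, hvz⟩ ⟨t.2, s.2, hts⟩ h1 h3 h4.1 h4.2
      intro z v s t hvz hts h1 h2 h4
      rcases lt_trichotomy (lev v) (lev t) with h3 | h3 | h3
      · exact key z v s t hvz hts h1 h2 h3 h4
      · have h5 : (v : ℕ) = t := hinj _ _ v.2 t.2 h3
        rw [← h5] at h4
        exact crN_same h1 (by rw [h3]; exact h2) h4
      · rw [crN_comm] at h4
        exact key s t z v hts hvz h2 h1 h3 h4
    refine ⟨fun a b _ w h1 h2 ↦ g1 a b w h1 h2, fun a b c d hab hcd hne ↦ ?_,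
      fun a b hne _ hall ↦ ?_⟩
    · refine (g2 _ _ _ _ hab.ne hcd.ne hne).2 ?_
      rw [cr_iff hX]
      have h1 : lev a ≠ lev b := fun h ↦ hab.ne (hτ h)
      have h2 : lev c ≠ lev d := fun h ↦ hcd.ne (hτ h)
      rcases lt_or_gt_of_ne h1 with h3 | h3 <;> rcases lt_or_gt_of_ne h2 with h4 | h4
      · exact hnc a b c d hab.symm hcd.symm h3 h4
      · rw [crN_swapr]
        exact hnc a b d c hab.symm hcd h3 h4
      · rw [crN_swapl]
        exact hnc b a c d hab hcd.symm h3 h4
      · rw [crN_swapl, crN_swapr]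
        exact hnc b a d c hab hcd h3 h4
    · have hall' : ∀ c d : Fin n, E.Adj c d → s(a, b) ≠ s(c, d) → ¬ CrN lev a b c d := by
        intro c d hcd hne'
        rw [← cr_iff hX]
        exact (g2 _ _ _ _ hne hcd.ne hne').1 (hall c d hcd hne')
      -- reduce to `lev b < lev a`
      have key : ∀ v z : Fin n, lev z < lev v →
          (∀ c d : Fin n, E.Adj c d → s(v, z) ≠ s(c, d) → ¬ CrN lev v z c d) → E.Adj v z := by
        intro v z hl hno
        by_contra hcon
        have h1 : ¬ ext E v z := fun ⟨_, _, h⟩ ↦ hcon h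
        rcases hT.max v z v.2 z.2 hl h1 with ⟨t, s, ⟨ht, hs, hts⟩, h2, h3, h4⟩ |
          ⟨t, s, ⟨ht, hs, hts⟩, h2, h3, h4, h5⟩
        · refine hno ⟨t, ht⟩ ⟨s, hs⟩ hts ?_ ?_
          · intro he
            have h5 : (⟨t, ht⟩ : Fin n) ∈ s(v, z) := by
              rw [he]
              exact Sym2.mem_mk_left _ _
            rcases Sym2.mem_iff.1 h5 with h6 | h6
            · have := congrArg (fun i : Fin n ↦ lev i) h6
              simp only at this
              omega
            · have := congrArg (fun i : Fin n ↦ lev i) h6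
              simp only at this
              omega
          · simp only
            rw [crN_swapl, crN_swapr, crN_iff hl (by omega) h3]
            exact ⟨h2, h4⟩
        · refine hno ⟨t, ht⟩ ⟨s, hs⟩ hts ?_ ?_
          · intro he
            have h6 : v ∈ s((⟨t, ht⟩ : Fin n), ⟨s, hs⟩) := by
              rw [← he]
              exact Sym2.mem_mk_left _ _
            rcases Sym2.mem_iff.1 h6 with h7 | h7
            · have := congrArg (fun i : Fin n ↦ lev i) h7
              simp only at this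
              omega
            · have := congrArg (fun i : Fin n ↦ lev i) h7
              simp only at this
              omega
          · simp only
            rw [crN_comm, crN_swapl, crN_swapr, crN_iff h2 hl h3]
            exact ⟨h4, h5⟩
      have h1 : lev a ≠ lev b := fun h ↦ hne (hτ h)
      rcases lt_or_gt_of_ne h1 with h3 | h3
      · refine (key b a h3 fun c d hcd hne' ↦ ?_).symm
        rw [crN_swapl]
        refine hall' c d hcd ?_
        rwa [Sym2.eq_swap]
      · exact key a b h3 hall'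

end Pool.Agent.MP7a5e6cPORD
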