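import Pool.Agent.Lib.MP_7a5e6c_co_PORD.Geo

/-!
# Flattening

Take `M` from `tri_iff`. There are finitely many `E`, so there is `η > 0` with
`hw n X (ext G) + η ≤ hw n X (ext E)` for all `E ≠ G` with `Tri n lev (ext E)`. For every `ε > 0`:
`hw n X (ext E) ≤ weight (pts n X lev M ε) E` (the distance is at least the difference of the
first coordinates), and `weight (pts n X lev M ε) G ≤ hw n X (ext G) + ε * C` (the distance is at
most `|X a - X b| + ε * |M ^ lev a - M ^ lev b|`). Choose `ε` with `ε * C < η`.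
-/

open scoped Classical
open Pool.Agent.MP7a5e6cSEQ (IsTriangulation weight)

namespace Pool.Agent.MP7a5e6cPORD

private theorem limit_hw {n : ℕ} (X : ℕ → ℝ) (E : SimpleGraph (Fin n)) :
    hw n X (ext E) = ∑ a : Fin n, ∑ b : Fin n, if E.Adj a b then |X a - X b| else 0 := by
  unfold hw
  rw [Finset.sum_range]
  refine Finset.sum_congr rfl fun a _ => ?_
  rw [Finset.sum_range]
  refine Finset.sum_congr rfl fun b _ => ?_
  have h : ext E (a : ℕ) (b : ℕ) ↔ E.Adj a b := by
    constructor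
    · rintro ⟨ha, hb, h⟩
      exact h
    · intro h
      exact ⟨a.2, b.2, h⟩
  by_cases hab : E.Adj a b
  · rw [if_pos (h.2 hab), if_pos hab]
  · rw [if_neg (fun h1 => hab (h.1 h1)), if_neg hab]

private theorem limit_dist {n : ℕ} (X : ℕ → ℝ) (lev : ℕ → ℕ) (M ε : ℝ) (a b : Fin n) :
    dist (pts n X lev M ε a) (pts n X lev M ε b) =
      Real.sqrt ((X a - X b) ^ 2 + (ε * M ^ lev a - ε * M ^ lev b) ^ 2) := by
  rw [EuclideanSpace.dist_eq, Fin.sum_univ_two]
  simp [pts, Real.dist_eq, sq_abs]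

private theorem limit_le_dist {n : ℕ} (X : ℕ → ℝ) (lev : ℕ → ℕ) (M ε : ℝ) (a b : Fin n) :
    |X a - X b| ≤ dist (pts n X lev M ε a) (pts n X lev M ε b) := by
  rw [limit_dist]
  apply Real.le_sqrt_of_sq_le
  rw [sq_abs]
  nlinarith [sq_nonneg (ε * M ^ lev a - ε * M ^ lev b)]

private theorem limit_dist_le {n : ℕ} (X : ℕ → ℝ) (lev : ℕ → ℕ) (M ε : ℝ) (hε : 0 < ε)
    (a b : Fin n) : dist (pts n X lev M ε a) (pts n X lev M ε b) ≤
      |X a - X b| + ε * |M ^ lev a - M ^ lev b| := by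
  rw [limit_dist]
  have h1 : ε * |M ^ lev a - M ^ lev b| = |ε * M ^ lev a - ε * M ^ lev b| := by
    rw [← mul_sub, abs_mul, abs_of_pos hε]
  rw [h1]
  apply Real.sqrt_le_iff.2
  refine ⟨by positivity, ?_⟩
  have h2 := sq_abs (X a - X b)
  have h3 := sq_abs (ε * M ^ lev a - ε * M ^ lev b)
  have h4 : 0 ≤ |X a - X b| * |ε * M ^ lev a - ε * M ^ lev b| := by positivity
  nlinarith

theorem limit (n : ℕ) (X : ℕ → ℝ) (hX : StrictMono X) (lev : ℕ → ℕ) (G : SimpleGraph (Fin n))
    (hG : Tri n lev (ext G))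
    (hmin : ∀ E : SimpleGraph (Fin n), Tri n lev (ext E) → E ≠ G →
      hw n X (ext G) < hw n X (ext E)) :
    ∃ f : Fin n → EuclideanSpace ℝ (Fin 2), Function.Injective f ∧ IsTriangulation f G ∧
      ∀ E : SimpleGraph (Fin n), IsTriangulation f E → E ≠ G → weight f G < weight f E := by
  obtain ⟨M, hM⟩ := tri_iff n X hX lev hG.inj
  -- the gap
  obtain ⟨η, hη, hη2⟩ : ∃ η : ℝ, 0 < η ∧ ∀ E : SimpleGraph (Fin n), Tri n lev (ext E) → E ≠ G →
      hw n X (ext G) + η ≤ hw n X (ext E) := by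
    let S : Finset (SimpleGraph (Fin n)) :=
      Finset.univ.filter fun E => Tri n lev (ext E) ∧ E ≠ G
    have hS : ∀ E, Tri n lev (ext E) → E ≠ G → E ∈ S := fun E h1 h2 =>
      Finset.mem_filter.2 ⟨Finset.mem_univ _, h1, h2⟩
    rcases S.eq_empty_or_nonempty with h | h
    · refine ⟨1, one_pos, fun E h1 h2 => ?_⟩
      have h3 := hS E h1 h2
      rw [h] at h3
      exact absurd h3 (Finset.notMem_empty E)
    · obtain ⟨E0, hE0, hmin0⟩ := S.exists_min_image (fun E => hw n X (ext E)) h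
      obtain ⟨-, h1, h2⟩ := Finset.mem_filter.1 hE0
      refine ⟨hw n X (ext E0) - hw n X (ext G), sub_pos.2 (hmin E0 h1 h2), fun E h3 h4 => ?_⟩
      have := hmin0 E (hS E h3 h4)
      linarith
  -- the choice of the height
  set C : ℝ := ∑ a : Fin n, ∑ b : Fin n, |M ^ lev a - M ^ lev b| with hC
  have hC0 : 0 ≤ C := Finset.sum_nonneg fun _ _ => Finset.sum_nonneg fun _ _ => abs_nonneg _
  have hε : 0 < η / (C + 1) := by positivity
  have hεC : η / (C + 1) * C < η := by
    rw [div_mul_eq_mul_div, div_lt_iff₀ (by linarith)]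
    nlinarith
  obtain ⟨hinj, htri⟩ := hM (η / (C + 1)) hε
  refine ⟨pts n X lev M (η / (C + 1)), hinj, (htri G).2 hG, fun E hE hEG => ?_⟩
  have hlow : hw n X (ext E) ≤ weight (pts n X lev M (η / (C + 1))) E := by
    rw [limit_hw]
    unfold weight
    refine Finset.sum_le_sum fun a _ => Finset.sum_le_sum fun b _ => ?_
    by_cases hab : E.Adj a b
    · rw [if_pos hab, if_pos hab]
      exact limit_le_dist X lev M _ a b
    · rw [if_neg hab, if_neg hab]
  have hup : weight (pts n X lev M (η / (C + 1))) G ≤ hw n X (ext G) + η / (C + 1) * C := by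
    rw [limit_hw, hC, Finset.mul_sum, ← Finset.sum_add_distrib]
    unfold weight
    refine Finset.sum_le_sum fun a _ => ?_
    rw [Finset.mul_sum, ← Finset.sum_add_distrib]
    refine Finset.sum_le_sum fun b _ => ?_
    by_cases hab : G.Adj a b
    · rw [if_pos hab, if_pos hab]
      exact limit_dist_le X lev M _ hε a b
    · rw [if_neg hab, if_neg hab, zero_add]
      exact mul_nonneg hε.le (abs_nonneg _)
  have h1 := hη2 E ((htri E).1 hE) hEG
  linarith

end Pool.Agent.MP7a5e6cPORD
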