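import Pool.Agent.Lib.MP_7a5e6c_co_PORD.Core
import Pool.Agent.Lib.MP_7a5e6c_co_PORD.Limit
import Pool.Agent.Lib.MP_7a5e6c_co_PORD.Class

/-!
# Graphs with a path growth are minimum weight drawable
-/

open scoped Classical
open Pool.Agent.MP7a5e6cSEQ (IsTriangulation weight)

namespace Pool.Agent.MP7a5e6cPORD

theorem isTri_comap {n : ℕ} (π : Fin n ≃ Fin n) (f : Fin n → EuclideanSpace ℝ (Fin 2))
    (E : SimpleGraph (Fin n)) :
    IsTriangulation (f ∘ π.symm) E ↔ IsTriangulation f (E.comap π) := by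
  have key : ∀ (f : Fin n → EuclideanSpace ℝ (Fin 2)) (π : Fin n ≃ Fin n)
      (E : SimpleGraph (Fin n)), IsTriangulation f E → IsTriangulation (f ∘ π) (E.comap π) := by
    intro f π E h
    obtain ⟨h1, h2, h3⟩ := h
    refine ⟨fun a b hab w hwa hwb ↦ ?_, fun a b c d hab hcd hne ↦ ?_, fun a b hne hw hnc ↦ ?_⟩
    · exact h1 (π a) (π b) hab (π w) (π.injective.ne hwa) (π.injective.ne hwb)
    · refine h2 (π a) (π b) (π c) (π d) hab hcd fun he ↦ hne ?_
      have h4 : Sym2.map π s(a, b) = Sym2.map π s(c, d) := he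
      exact Sym2.map.injective π.injective h4
    · refine h3 (π a) (π b) (π.injective.ne hne) (fun w hwa hwb ↦ ?_) fun c d hcd hne' ↦ ?_
      · have := hw (π.symm w) (fun h ↦ hwa (by rw [← h, π.apply_symm_apply]))
          (fun h ↦ hwb (by rw [← h, π.apply_symm_apply]))
        simpa using this
      · have := hnc (π.symm c) (π.symm d) (by simpa using hcd) (fun he ↦ hne' (by
          have h4 := congrArg (Sym2.map π) he
          simpa using h4))
        simpa using this
  constructor
  · intro h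
    have h1 := key (f ∘ π.symm) π E h
    have h2 : (f ∘ π.symm) ∘ π = f := by
      funext x
      simp
    rwa [h2] at h1
  · intro h
    have h1 := key f π.symm (E.comap π) h
    have h2 : (E.comap π).comap π.symm = E := by
      ext a b
      simp
    rwa [h2] at h1

theorem weight_comap {n : ℕ} (π : Fin n ≃ Fin n) (f : Fin n → EuclideanSpace ℝ (Fin 2))
    (E : SimpleGraph (Fin n)) : weight (f ∘ π.symm) E = weight f (E.comap π) := by
  unfold weight
  rw [← Equiv.sum_comp π]
  refine Finset.sum_congr rfl fun a _ ↦ ?_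
  rw [← Equiv.sum_comp π]
  refine Finset.sum_congr rfl fun b _ ↦ ?_
  simp

theorem ext_inj {n : ℕ} {E G : SimpleGraph (Fin n)} (h : ext E = ext G) : E = G := by
  ext a b
  have h1 := congrFun (congrFun h a.1) b.1
  simp only [ext, Fin.is_lt, Fin.eta, exists_const, eq_iff_iff] at h1
  simpa using h1

theorem drawable {n : ℕ} (G : SimpleGraph (Fin n)) (O P U : List (Fin n)) (t : Fin n)
    (hG : PathGrowth G O P U) (ht : t ∉ O) (hO : ∀ v, v = t ∨ v ∈ O)
    (hadj : ∀ w ∈ O, G.Adj t w ↔ w ∈ U) :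
    ∃ f : Fin n → EuclideanSpace ℝ (Fin 2), Function.Injective f ∧ IsTriangulation f G ∧
      ∀ E : SimpleGraph (Fin n), IsTriangulation f E → E ≠ G → weight f G < weight f E := by
  obtain ⟨π, lev, hA, hg, hT⟩ := class_tri G O P U t hG ht hO hadj
  have hn : 2 ≤ n := by
    have hne : ∃ w, w ∈ O := by
      clear ht hO hadj
      induction hG with
      | point a => exact ⟨a, by simp⟩
      | insert => exact ⟨_, List.mem_cons_self⟩
      | right => exact ⟨_, List.mem_cons_self⟩
      | flip O P U h ih => exact ih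
    obtain ⟨w, hw⟩ := hne
    have h1 : t ≠ w := fun h ↦ ht (h ▸ hw)
    have h2 := t.isLt
    have h3 := w.isLt
    have h4 : t.1 ≠ w.1 := fun h ↦ h1 (Fin.ext h)
    omega
  obtain ⟨X, hX, hmin⟩ := core n hn lev _ hA hg hT
  obtain ⟨f, hf, hfG, hfmin⟩ := limit n X hX lev (G.comap π) hA fun E hE hne ↦
    hmin _ hE fun h ↦ hne (ext_inj h)
  refine ⟨f ∘ π.symm, hf.comp π.symm.injective, (isTri_comap π f G).2 hfG, fun E hE hne ↦ ?_⟩
  rw [weight_comap, weight_comap]
  refine hfmin _ ((isTri_comap π f E).1 hE) fun h ↦ hne ?_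
  have h2 : (E.comap π).comap π.symm = (G.comap π).comap π.symm := by rw [h]
  ext a b
  have h3 := congrArg (fun H : SimpleGraph (Fin n) ↦ H.Adj a b) h2
  simpa using h3

end Pool.Agent.MP7a5e6cPORD
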