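import Pool.Agent.Lib.MP_7a5e6c_co_PORD.Defs

/-!
# The structure of the triangulations of permutation type
-/

open scoped Classical

namespace Pool.Agent.MP7a5e6cPORD

/-- The vertex `z` is visible from above at time `k`. -/
def Vis (n : ℕ) (lev : ℕ → ℕ) (A : ℕ → ℕ → Prop) (k z : ℕ) : Prop :=
  z < n ∧ lev z < k ∧
    ∀ t s, A t s → lev s < lev t → lev t < k → lev z < lev t → ¬ Btw s z t

/-- The vertex `m` is visible at the time of `t`, and it is covered by an edge of `t`. The vertex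
`c` is the first visible vertex beyond `m`. -/
structure CovE (n : ℕ) (lev : ℕ → ℕ) (A : ℕ → ℕ → Prop) (m t c : ℕ) : Prop where
  tn : t < n
  vm : Vis n lev A (lev t) m
  vc : Vis n lev A (lev t) c
  bt : Btw c m t
  adj : A t c
  nb : ∀ w, Vis n lev A (lev t) w → ¬ Btw c w m

section

variable {n : ℕ} {lev : ℕ → ℕ} {A : ℕ → ℕ → Prop}

theorem Vis.mono {k k' z : ℕ} (h : Vis n lev A k' z) (hk : k ≤ k') (hz : lev z < k) :
    Vis n lev A k z :=
  ⟨h.1, hz, fun t s h1 h2 h3 h4 ↦ h.2.2 t s h1 h2 (h3.trans_le hk) h4⟩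

variable (hA : Tri n lev A)

include hA

theorem Tri.lt' {a b : ℕ} (h : A a b) : b < n := hA.lt b a (hA.sym a b h)

theorem Tri.visAdj {t s : ℕ} (h : A t s) (hl : lev s < lev t) : Vis n lev A (lev t) s :=
  ⟨hA.lt' h, hl, fun t' s' h1 h2 h3 h4 ↦ hA.nc t' s' t s h1 h h2 h3 h4⟩

theorem Tri.adjOr {v z : ℕ} (hv : v < n) (hz : Vis n lev A (lev v) z) :
    A v z ∨ ∃ t s, A t s ∧ lev s < lev v ∧ lev v < lev t ∧ Btw z s v := by
  by_cases h : A v z
  · exact Or.inl h
  · right
    rcases hA.max v z hv hz.1 hz.2.1 h with h1 | ⟨t, s, h1, h2, h3, h4, h5⟩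
    · exact h1
    · exact absurd h5 (hz.2.2 t s h1 h2 h3 h4)

theorem Tri.nearAdj {v z : ℕ} (hv : v < n) (hz : Vis n lev A (lev v) z)
    (h : ∀ w, Vis n lev A (lev v) w → ¬ Btw z w v) : A v z := by
  rcases hA.adjOr hv hz with h1 | ⟨t, s, h1, h2, h3, h4⟩
  · exact h1
  · exact absurd h4 (h s ((hA.visAdj h1 (h2.trans h3)).mono h3.le h2))

theorem Tri.contig {v z z' : ℕ} (h : A v z) (hl : lev z < lev v)
    (hz : Vis n lev A (lev v) z') (hb : Btw z z' v) : A v z' := by
  rcases hA.adjOr (hA.lt v z h) hz with h1 | ⟨t, s, h1, h2, h3, h4⟩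
  · exact h1
  · refine absurd ?_ (hA.nc v z t s h h1 hl h3 h2)
    unfold Btw at *
    omega

/-- The newest vertex between two visible ones is visible if it is newer than both. -/
theorem Tri.lastVis {k a b w : ℕ} (ha : Vis n lev A k a) (hb : Vis n lev A k b)
    (hw : Btw a w b) (hwk : lev w < k)
    (hmax : ∀ w', w' < n → Btw a w' b → lev w' < k → lev w' ≤ lev w)
    (h1 : lev a < lev w) (h2 : lev b < lev w) : Vis n lev A k w := by
  refine ⟨?_, hwk, fun t s h3 h4 h5 h6 h7 ↦ ?_⟩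
  · have := ha.1
    have := hb.1
    unfold Btw at hw
    omega
  · have h8 : ¬ Btw a t b := fun h9 ↦ by
      have := hmax t (hA.lt t s h3) h9 h5
      omega
    have h9 := ha.2.2 t s h3 h4 h5 (h1.trans h6)
    have h10 := hb.2.2 t s h3 h4 h5 (h2.trans h6)
    have h11 : t ≠ a := by
      rintro rfl
      omega
    have h12 : t ≠ b := by
      rintro rfl
      omega
    unfold Btw at *
    omega

theorem Tri.hidden {k a b : ℕ} (ha : Vis n lev A k a) (hb : Vis n lev A k b)
    (hno : ∀ w, Vis n lev A k w → ¬ Btw a w b) {w : ℕ} (hw : Btw a w b) (hwk : lev w < k) :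
    lev w < lev a ∨ lev w < lev b := by
  have hwn : ∀ w, Btw a w b → w < n := fun w hw ↦ by
    have := ha.1
    have := hb.1
    unfold Btw at hw
    omega
  obtain ⟨x, hx, hmax⟩ := Finset.exists_max_image
    ((Finset.range n).filter fun w ↦ Btw a w b ∧ lev w < k) lev
    ⟨w, Finset.mem_filter.2 ⟨Finset.mem_range.2 (hwn w hw), hw, hwk⟩⟩
  obtain ⟨hx1, hx2, hx3⟩ := Finset.mem_filter.1 hx
  have hx4 := hmax w (Finset.mem_filter.2 ⟨Finset.mem_range.2 (hwn w hw), hw, hwk⟩)
  by_contra hcon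
  have hxa : x ≠ a := by
    rintro rfl
    unfold Btw at hx2
    omega
  have hxb : x ≠ b := by
    rintro rfl
    unfold Btw at hx2
    omega
  have h1 : lev x ≠ lev a := fun h ↦ hxa (hA.inj x a (Finset.mem_range.1 hx1) ha.1 h)
  have h2 : lev x ≠ lev b := fun h ↦ hxb (hA.inj x b (Finset.mem_range.1 hx1) hb.1 h)
  refine hno x (hA.lastVis ha hb hx2 hx3 (fun w' h3 h4 h5 ↦ ?_) (by omega) (by omega)) hx2
  exact hmax w' (Finset.mem_filter.2 ⟨Finset.mem_range.2 h3, h4, h5⟩)

theorem Tri.consec' {k a b : ℕ} (ha : Vis n lev A k a) (hb : Vis n lev A k b)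
    (hno : ∀ w, Vis n lev A k w → ¬ Btw a w b) (hab : lev a < lev b) : A b a := by
  rcases hA.adjOr hb.1 (ha.mono hb.2.1.le hab) with h1 | ⟨t, s, h1, h2, h3, h4⟩
  · exact h1
  · exfalso
    by_cases hk : lev t < k
    · have h5 := ha.2.2 t s h1 (h2.trans h3) hk (hab.trans h3)
      have h6 := hb.2.2 t s h1 (h2.trans h3) hk h3
      have h7 : t ≠ a := by
        rintro rfl
        omega
      have h8 : t ≠ b := by
        rintro rfl
        omega
      have h9 : Btw a t b := by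
        unfold Btw at *
        omega
      have := hA.hidden ha hb hno h9 hk
      omega
    · refine hno s ((hA.visAdj h1 (h2.trans h3)).mono (by omega) ?_) h4
      exact h2.trans hb.2.1

theorem Tri.consec {k a b : ℕ} (ha : Vis n lev A k a) (hb : Vis n lev A k b) (hne : a ≠ b)
    (hno : ∀ w, Vis n lev A k w → ¬ Btw a w b) : A a b := by
  have h1 : lev a ≠ lev b := fun h ↦ hne (hA.inj a b ha.1 hb.1 h)
  rcases lt_or_gt_of_ne h1 with h2 | h2
  · exact hA.sym _ _ (hA.consec' ha hb hno h2)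
  · refine hA.consec' hb ha (fun w hw hw' ↦ hno w hw ?_) h2
    unfold Btw at *
    omega

theorem CovE.unique {m t c t' c' : ℕ} (h : CovE n lev A m t c) (h' : CovE n lev A m t' c') :
    t = t' ∧ c = c' := by
  have key : ∀ {t c t' c'}, CovE n lev A m t c → CovE n lev A m t' c' → ¬ lev t < lev t' := by
    intro t c t' c' h h' hlt
    exact h'.vm.2.2 t c h.adj h.vc.2.1 hlt h.vm.2.1 h.bt
  have h1 : t = t' := hA.inj t t' h.tn h'.tn (by
    have h2 := key h h'
    have h3 := key h' h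
    omega)
  subst h1
  refine ⟨rfl, ?_⟩
  have h2 := h.nb c' h'.vc
  have h3 := h'.nb c h.vc
  have h4 := h.bt
  have h5 := h'.bt
  unfold Btw at *
  omega

/-- The next visible vertex after `z` towards `t`. -/
theorem Tri.next {t z w : ℕ} (h : A t z) (hl : lev z < lev t) (hw : Vis n lev A (lev t) w)
    (hb : Btw z w t) : ∃ m, CovE n lev A m t z ∧ Btw z m t := by
  have hz := hA.visAdj h hl
  have hex : ∃ d, ∃ m, Vis n lev A (lev t) m ∧ Btw z m t ∧ (m = z + d ∨ z = m + d) := by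
    rcases le_total z w with h1 | h1
    · exact ⟨w - z, w, hw, hb, Or.inl (by omega)⟩
    · exact ⟨z - w, w, hw, hb, Or.inr (by omega)⟩
  obtain ⟨m, hm1, hm2, hm3⟩ := Nat.find_spec hex
  refine ⟨m, ⟨hA.lt t z h, hm1, hz, hm2, h, fun x hx hbx ↦ ?_⟩, hm2⟩
  rcases le_total z x with h1 | h1
  · refine Nat.find_min hex (m := x - z) ?_ ⟨x, hx, ?_, Or.inl (by omega)⟩
    · unfold Btw at *
      omega
    · unfold Btw at *
      omega
  · refine Nat.find_min hex (m := z - x) ?_ ⟨x, hx, ?_, Or.inr (by omega)⟩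
    · unfold Btw at *
      omega
    · unfold Btw at *
      omega

/-- A covered vertex has a first covering edge. -/
theorem Tri.cov {m t s : ℕ} (hm : m < n) (h : A t s) (hl : lev s < lev t) (hmt : lev m < lev t)
    (hb : Btw s m t) : ∃ t c, CovE n lev A m t c := by
  obtain ⟨t, ht, hmin⟩ := Finset.exists_min_image
    ((Finset.range n).filter fun t ↦ lev m < lev t ∧ ∃ s, A t s ∧ lev s < lev t ∧ Btw s m t) lev
    ⟨t, Finset.mem_filter.2 ⟨Finset.mem_range.2 (hA.lt t s h), hmt, s, h, hl, hb⟩⟩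
  obtain ⟨ht1, ht2, s, ht3, ht4, ht5⟩ := Finset.mem_filter.1 ht
  have hvm : Vis n lev A (lev t) m := by
    refine ⟨hm, ht2, fun t' s' h1 h2 h3 h4 h5 ↦ ?_⟩
    have := hmin t' (Finset.mem_filter.2 ⟨Finset.mem_range.2 (hA.lt t' s' h1), h4, s', h1, h2, h5⟩)
    omega
  -- the nearest visible vertex beyond `m`
  have hex : ∃ d, ∃ c, Vis n lev A (lev t) c ∧ Btw c m t ∧ (m = c + d ∨ c = m + d) := by
    rcases le_total s m with h1 | h1
    · exact ⟨m - s, s, hA.visAdj ht3 ht4, ht5, Or.inl (by omega)⟩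
    · exact ⟨s - m, s, hA.visAdj ht3 ht4, ht5, Or.inr (by omega)⟩
  obtain ⟨c, hc1, hc2, hc3⟩ := Nat.find_spec hex
  have hnb : ∀ w, Vis n lev A (lev t) w → ¬ Btw c w m := by
    intro x hx hbx
    rcases le_total m x with h1 | h1
    · refine Nat.find_min hex (m := x - m) ?_ ⟨x, hx, ?_, Or.inr (by omega)⟩
      · unfold Btw at *
        omega
      · unfold Btw at *
        omega
    · refine Nat.find_min hex (m := m - x) ?_ ⟨x, hx, ?_, Or.inl (by omega)⟩
      · unfold Btw at *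
        omega
      · unfold Btw at *
        omega
  refine ⟨t, c, ⟨Finset.mem_range.1 ht1, hvm, hc1, hc2, ?_, hnb⟩⟩
  by_cases hcs : c = s
  · exact hcs ▸ ht3
  · refine hA.contig ht3 ht4 hc1 ?_
    have h3 := hnb s (hA.visAdj ht3 ht4)
    unfold Btw at *
    omega

end

end Pool.Agent.MP7a5e6cPORD
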