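import Pool.Agent.Lib.MP_7a5e6c_co_PORD.Struct

/-!
# Covering edges, the property (K), and the tree of a good triangulation
-/

open scoped Classical

namespace Pool.Agent.MP7a5e6cPORD

section

variable {n : ℕ} {lev : ℕ → ℕ} {A : ℕ → ℕ → Prop}

/-- The nearest visible vertices of `t`, on both sides. -/
noncomputable def near (n : ℕ) (lev : ℕ → ℕ) (A : ℕ → ℕ → Prop) (t : ℕ) : Finset ℕ :=
  (Finset.range n).filter fun z ↦ Vis n lev A (lev t) z ∧
    ∀ w, Vis n lev A (lev t) w → ¬ Btw z w t

theorem mem_near {t z : ℕ} : z ∈ near n lev A t ↔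
    Vis n lev A (lev t) z ∧ ∀ w, Vis n lev A (lev t) w → ¬ Btw z w t := by
  unfold near
  rw [Finset.mem_filter, Finset.mem_range]
  exact ⟨fun h ↦ h.2, fun h ↦ ⟨h.1.1, h⟩⟩

variable (hA : Tri n lev A)

include hA

theorem Tri.adj_near {t z : ℕ} (ht : t < n) (h : z ∈ near n lev A t) : A t z :=
  hA.nearAdj ht (mem_near.1 h).1 (mem_near.1 h).2

/-- On each side with an older vertex there is a nearest visible one. -/
theorem Tri.exists_near {t z : ℕ} (ht : t < n) (hz : z < n) (hl : lev z < lev t) :
    ∃ w ∈ near n lev A t, (z < t → w < t) ∧ (t < z → t < w) := by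
  -- an extreme older vertex is visible
  have h1 : ∃ x, Vis n lev A (lev t) x ∧ (z < t → x < t) ∧ (t < z → t < x) := by
    rcases lt_or_ge z t with h | h
    · have hex : ∃ x, x < n ∧ lev x < lev t := ⟨z, hz, hl⟩
      obtain ⟨h2, h3⟩ := Nat.find_spec hex
      have h4 : Nat.find hex ≤ z := Nat.find_min' hex ⟨hz, hl⟩
      refine ⟨Nat.find hex, ⟨h2, h3, fun t' s' h5 h6 h7 h8 h9 ↦ ?_⟩, by omega, by omega⟩
      have h10 : ¬ (t' < Nat.find hex) := fun h' ↦
        Nat.find_min hex h' ⟨hA.lt t' s' h5, h7⟩
      have h11 : ¬ (s' < Nat.find hex) := fun h' ↦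
        Nat.find_min hex h' ⟨hA.lt' h5, h6.trans h7⟩
      unfold Btw at h9
      omega
    · have hex : ∃ d, ∃ x, x < n ∧ lev x < lev t ∧ x + d = n := ⟨n - z, z, hz, hl, by omega⟩
      obtain ⟨x, h2, h3, h4⟩ := Nat.find_spec hex
      have h12 : ∀ y, y < n → lev y < lev t → y ≤ x := by
        intro y hy1 hy2
        by_contra h'
        exact Nat.find_min hex (m := n - y) (by omega) ⟨y, hy1, hy2, by omega⟩
      have h13 := h12 z hz hl
      have h14 : z ≠ t := by
        rintro rfl
        omega
      refine ⟨x, ⟨h2, h3, fun t' s' h5 h6 h7 h8 h9 ↦ ?_⟩, by omega, by omega⟩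
      have h10 := h12 t' (hA.lt t' s' h5) h7
      have h11 := h12 s' (hA.lt' h5) (h6.trans h7)
      unfold Btw at h9
      omega
  have hex : ∃ d, ∃ x, Vis n lev A (lev t) x ∧ ((z < t → x < t) ∧ (t < z → t < x)) ∧
      (t = x + d ∨ x = t + d) := by
    obtain ⟨x, h2, h3⟩ := h1
    rcases le_total x t with h | h
    · exact ⟨t - x, x, h2, h3, Or.inl (by omega)⟩
    · exact ⟨x - t, x, h2, h3, Or.inr (by omega)⟩
  have hzt : z ≠ t := by
    rintro rfl
    omega
  obtain ⟨x, h2, h3, h4⟩ := Nat.find_spec hex
  refine ⟨x, mem_near.2 ⟨h2, fun w hw hb ↦ ?_⟩, h3⟩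
  rcases le_total w t with h | h
  · refine Nat.find_min hex (m := t - w) ?_ ⟨w, hw, ?_, Or.inl (by omega)⟩
    · unfold Btw at hb
      omega
    · unfold Btw at hb
      omega
  · refine Nat.find_min hex (m := w - t) ?_ ⟨w, hw, ?_, Or.inr (by omega)⟩
    · unfold Btw at hb
      omega
    · unfold Btw at hb
      omega

/-- If `A` is good, then the nearest visible vertices are the nearest older vertices. -/
theorem Tri.good_near (hg : Good n lev A) {t z w : ℕ} (ht : t < n) (hz : z ∈ near n lev A t)
    (hw : w < n) (hl : lev w < lev t) : ¬ Btw z w t := by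
  intro hb
  -- the nearest older vertex on the side of `z`
  have hex : ∃ d, ∃ x, (x < n ∧ lev x < lev t) ∧ Btw z x t ∧ (t = x + d ∨ x = t + d) := by
    rcases le_total w t with h | h
    · exact ⟨t - w, w, ⟨hw, hl⟩, hb, Or.inl (by omega)⟩
    · exact ⟨w - t, w, ⟨hw, hl⟩, hb, Or.inr (by omega)⟩
  obtain ⟨x, ⟨h2, h2'⟩, h3, h4⟩ := Nat.find_spec hex
  have hadj : A t x := by
    refine hg t x ht h2 h2' fun y hy ↦ ?_
    have hyn : y < n := by
      unfold Btw at hy
      omega
    have hyt : y ≠ t := by
      rintro rfl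
      unfold Btw at hy
      omega
    by_contra hcon
    have hyl : lev y < lev t := by
      rcases lt_or_eq_of_le (not_lt.1 hcon) with h5 | h5
      · exact h5
      · exact absurd (hA.inj y t hyn ht h5) hyt
    rcases le_total y t with h | h
    · refine Nat.find_min hex (m := t - y) ?_ ⟨y, ⟨hyn, hyl⟩, ?_, Or.inl (by omega)⟩
      · unfold Btw at *
        omega
      · unfold Btw at *
        omega
    · refine Nat.find_min hex (m := y - t) ?_ ⟨y, ⟨hyn, hyl⟩, ?_, Or.inr (by omega)⟩
      · unfold Btw at *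
        omega
      · unfold Btw at *
        omega
  exact (mem_near.1 hz).2 x (hA.visAdj hadj h2') h3

variable (hT : Top n lev)

include hT

omit hA in
theorem top_le {a : ℕ} (ha : a < n) : lev a ≤ lev (n - 1) := by
  rcases Nat.lt_or_ge (a + 1) n with h | h
  · exact (hT a h).le
  · have : a = n - 1 := by omega
    rw [this]

theorem Tri.adj_ends (hn : 2 ≤ n) : A (n - 1) 0 := by
  have h0 : lev 0 < lev (n - 1) := hT 0 (by omega)
  have hv : Vis n lev A (lev (n - 1)) 0 := by
    refine ⟨by omega, h0, fun t s _ _ _ _ h ↦ ?_⟩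
    unfold Btw at h
    omega
  rcases hA.adjOr (by omega) hv with h | ⟨t, s, h1, h2, h3, h4⟩
  · exact h
  · have := top_le hT (hA.lt t s h1)
    omega

theorem Tri.covAll {m : ℕ} (h1 : 0 < m) (h2 : m < n - 1) : ∃ t c, CovE n lev A m t c := by
  refine hA.cov (by omega) (hA.adj_ends hT (by omega)) (hT 0 (by omega)) (hT m (by omega)) ?_
  unfold Btw
  omega

theorem Tri.choose_cov : ∃ T C : ℕ → ℕ, ∀ m, 0 < m → m < n - 1 → CovE n lev A m (T m) (C m) := by
  have h : ∀ m, ∃ t c, 0 < m → m < n - 1 → CovE n lev A m t c := by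
    intro m
    by_cases hm : 0 < m ∧ m < n - 1
    · obtain ⟨t, c, h⟩ := hA.covAll hT hm.1 hm.2
      exact ⟨t, c, fun _ _ ↦ h⟩
    · exact ⟨0, 0, fun h1 h2 ↦ absurd ⟨h1, h2⟩ hm⟩
  choose T C h using h
  exact ⟨T, C, h⟩

omit hT in
/-- The property (K). -/
theorem tri_propK {T C : ℕ → ℕ} (hTC : ∀ m, 0 < m → m < n - 1 → CovE n lev A m (T m) (C m))
    (c d : ℕ) (hd : d ≤ n - 1) (hcd : c + 1 < d) :
    ∃ m, c < m ∧ m < d ∧ min (C m) (T m) ≤ c ∧ d ≤ max (C m) (T m) := by
  obtain ⟨m₁, hm₁, hmax⟩ := Finset.exists_max_image (Finset.Ioo c d) (fun m ↦ lev (T m))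
    ⟨c + 1, Finset.mem_Ioo.2 ⟨by omega, hcd⟩⟩
  rw [Finset.mem_Ioo] at hm₁
  have hmax' : ∀ m, c < m → m < d → lev (T m) ≤ lev (T m₁) := fun m h1 h2 ↦
    hmax m (Finset.mem_Ioo.2 ⟨h1, h2⟩)
  have hc1 := hTC m₁ (by omega) (by omega)
  have ht : ¬ (c < T m₁ ∧ T m₁ < d) := by
    rintro ⟨h1, h2⟩
    have h3 := hmax' _ h1 h2
    have h4 := (hTC (T m₁) (by omega) (by omega)).vm.2.1
    omega
  have htc : T m₁ ≠ c → T m₁ ≠ d → T m₁ < c ∨ d < T m₁ := by omega
  -- a visible vertex between `c` and `d` is covered by `T m₁`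
  have key : ∀ x, c < x → x < d → Vis n lev A (lev (T m₁)) x → T x = T m₁ := by
    intro x h1 h2 h3
    have h4 := hTC x (by omega) (by omega)
    have h5 := hmax' x h1 h2
    rcases lt_or_eq_of_le h5 with h6 | h6
    · exact absurd h4.bt (h3.2.2 (T x) (C x) h4.adj h4.vc.2.1 h6 h4.vm.2.1)
    · exact hA.inj _ _ h4.tn hc1.tn h6
  rcases Nat.lt_or_ge (T m₁) d with h1 | h1
  · -- the covering vertex is on the left
    have hex : ∃ e, ∃ m, c < m ∧ m < d ∧ T m = T m₁ ∧ m + e = d :=
      ⟨d - m₁, m₁, hm₁.1, hm₁.2, rfl, by omega⟩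
    obtain ⟨m, h2, h3, h4, h5⟩ := Nat.find_spec hex
    have h6 := hTC m (by omega) (by omega)
    rw [h4] at h6
    refine ⟨m, h2, h3, ?_, ?_⟩
    · rw [h4]
      omega
    · rw [h4]
      by_contra hcon
      have h7 : m < C m ∧ C m < d := by
        have := h6.bt
        unfold Btw at this
        omega
      refine Nat.find_min hex (m := d - C m) (by omega) ⟨C m, by omega, h7.2, ?_, by omega⟩
      exact key _ (by omega) h7.2 h6.vc
  · have hex : ∃ e, ∃ m, c < m ∧ m < d ∧ T m = T m₁ ∧ m = c + e :=
      ⟨m₁ - c, m₁, hm₁.1, hm₁.2, rfl, by omega⟩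
    obtain ⟨m, h2, h3, h4, h5⟩ := Nat.find_spec hex
    have h6 := hTC m (by omega) (by omega)
    rw [h4] at h6
    refine ⟨m, h2, h3, ?_, ?_⟩
    · rw [h4]
      by_contra hcon
      have h7 : C m < m ∧ c < C m := by
        have := h6.bt
        unfold Btw at this
        omega
      refine Nat.find_min hex (m := C m - c) (by omega) ⟨C m, h7.2, by omega, ?_, by omega⟩
      exact key _ h7.2 (by omega) h6.vc
    · rw [h4]
      omega

omit hT in
/-- The tree of a good triangulation. -/
theorem tri_node (hg : Good n lev A) {T C : ℕ → ℕ}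
    (hTC : ∀ m, 0 < m → m < n - 1 → CovE n lev A m (T m) (C m)) :
    ∀ N t z : ℕ, t < z + N → z < t + N → A t z → lev z < lev t →
      (∀ w, Btw z w t → lev w < lev t) →
      Node (fun m ↦ min (C m) (T m)) (fun m ↦ max (C m) (T m)) (min z t) (max z t) := by
  intro N
  induction N with
  | zero => intro t z h1 h2; omega
  | succ N ih =>
    intro t z h1 h2 h hl hall
    have htz : t ≠ z := fun h' ↦ hA.irr t (by
      have := h
      rwa [← h'] at this)
    have htn := hA.lt t z h
    have hzn := hA.lt' h
    by_cases hlen : ∃ w, Btw z w t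
    · obtain ⟨w, hw⟩ := hlen
      -- the neighbour of `t` on the side of `z`
      have h3 : ∃ w, Btw z w t ∧ ∀ y, ¬ Btw w y t := by
        rcases lt_or_gt_of_ne htz with h4 | h4
        · refine ⟨t + 1, ?_, fun y ↦ ?_⟩
          · unfold Btw at *
            omega
          · unfold Btw at *
            omega
        · refine ⟨t - 1, ?_, fun y ↦ ?_⟩
          · unfold Btw at *
            omega
          · unfold Btw at *
            omega
      obtain ⟨w₁, h4, h5⟩ := h3
      have h6 : A t w₁ := by
        refine hg t w₁ htn ?_ (hall w₁ h4) fun y hy ↦ ?_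
        · unfold Btw at h4
          omega
        · refine absurd ?_ (h5 y)
          unfold Btw at *
          omega
      obtain ⟨m, hm, hb⟩ := hA.next h hl (hA.visAdj h6 (hall w₁ h4)) h4
      have hm0 : 0 < m ∧ m < n - 1 := by
        unfold Btw at hb
        omega
      obtain ⟨e1, e2⟩ := hm.unique hA (hTC m hm0.1 hm0.2)
      have hAm : A t m := hA.contig h hl hm.vm hb
      have hcons : A z m := by
        refine hA.consec hm.vc hm.vm ?_ hm.nb
        unfold Btw at hb
        omega
      have hlm : lev m < lev t := hm.vm.2.1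
      -- the part between `m` and `t`
      have n1 := ih t m (by unfold Btw at hb; omega) (by unfold Btw at hb; omega) hAm hlm
        (fun w hw ↦ hall w (by unfold Btw at *; omega))
      -- the part between `z` and `m`
      have hhid : ∀ w, Btw z w m → lev w < lev z ∨ lev w < lev m := fun w hw ↦
        hA.hidden hm.vc hm.vm hm.nb hw (hall w (by unfold Btw at *; omega))
      have n2 : Node (fun m ↦ min (C m) (T m)) (fun m ↦ max (C m) (T m)) (min z m) (max z m) := by
        have h7 : lev z ≠ lev m := fun h' ↦ by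
          have := hA.inj z m hzn hm.vm.1 h'
          unfold Btw at hb
          omega
        rcases lt_or_gt_of_ne h7 with h8 | h8
        · exact ih m z (by unfold Btw at hb; omega) (by unfold Btw at hb; omega)
            (hA.sym _ _ hcons) h8 (fun w hw ↦ by have := hhid w hw; omega)
        · rw [min_comm, max_comm]
          refine ih z m (by unfold Btw at hb; omega) (by unfold Btw at hb; omega) hcons h8
            (fun w hw ↦ ?_)
          have := hhid w (by unfold Btw at *; omega)
          omega
      rcases lt_or_gt_of_ne htz with h9 | h9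
      · have e3 : min z t = t := by omega
        have e4 : max z t = z := by omega
        have e5 : min m t = t := by unfold Btw at hb; omega
        have e6 : max m t = m := by unfold Btw at hb; omega
        have e7 : min z m = m := by unfold Btw at hb; omega
        have e8 : max z m = z := by unfold Btw at hb; omega
        rw [e3, e4]
        rw [e5, e6] at n1
        rw [e7, e8] at n2
        refine Node.node t m z ?_ ?_ ?_ ?_ n1 n2
        · unfold Btw at hb
          omega
        · unfold Btw at hb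
          omega
        · rw [← e1, ← e2, e3]
        · rw [← e1, ← e2, e4]
      · have e3 : min z t = z := by omega
        have e4 : max z t = t := by omega
        have e5 : min m t = m := by unfold Btw at hb; omega
        have e6 : max m t = t := by unfold Btw at hb; omega
        have e7 : min z m = z := by unfold Btw at hb; omega
        have e8 : max z m = m := by unfold Btw at hb; omega
        rw [e3, e4]
        rw [e5, e6] at n1
        rw [e7, e8] at n2
        refine Node.node z m t ?_ ?_ ?_ ?_ n2 n1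
        · unfold Btw at hb
          omega
        · unfold Btw at hb
          omega
        · rw [← e1, ← e2, e3]
        · rw [← e1, ← e2, e4]
    · have h10 : max z t = min z t + 1 := by
        by_contra hcon
        refine hlen ⟨min z t + 1, ?_⟩
        unfold Btw
        omega
      rw [h10]
      exact Node.leaf _

end

end Pool.Agent.MP7a5e6cPORD
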