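import Pool.Agent.Lib.MP_7a5e6c_co_PORD.Struct2

/-!
# The horizontal length of a triangulation of permutation type
-/

open scoped Classical

namespace Pool.Agent.MP7a5e6cPORD

section

variable {n : ℕ} {lev : ℕ → ℕ} {A : ℕ → ℕ → Prop}

/-- The older neighbours of `t`. -/
noncomputable def back (n : ℕ) (lev : ℕ → ℕ) (A : ℕ → ℕ → Prop) (t : ℕ) : Finset ℕ :=
  (Finset.range n).filter fun z ↦ A t z ∧ lev z < lev t

theorem hw_eq (hA : Tri n lev A) (X : ℕ → ℝ) :
    hw n X A = 2 * ∑ t ∈ Finset.range n, ∑ z ∈ back n lev A t, |X t - X z| := by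
  have h1 : ∀ a ∈ Finset.range n, (∑ b ∈ Finset.range n, if A a b then |X a - X b| else 0) =
      (∑ z ∈ back n lev A a, |X a - X z|) +
      ∑ b ∈ Finset.range n, if A b a ∧ lev a < lev b then |X b - X a| else 0 := by
    intro a ha
    unfold back
    rw [Finset.sum_filter, ← Finset.sum_add_distrib]
    refine Finset.sum_congr rfl fun b hb ↦ ?_
    by_cases h : A a b
    · have hne : lev a ≠ lev b := fun h' ↦ by
        have h2 := hA.inj a b (Finset.mem_range.1 ha) (Finset.mem_range.1 hb) h'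
        rw [← h2] at h
        exact hA.irr a h
      rcases lt_or_gt_of_ne hne with h2 | h2
      · rw [if_pos h, if_neg (fun h' ↦ by omega), if_pos ⟨hA.sym _ _ h, h2⟩, zero_add,
          abs_sub_comm]
      · rw [if_pos h, if_pos ⟨h, h2⟩, if_neg (fun h' ↦ by omega), add_zero]
    · rw [if_neg h, if_neg (fun h' ↦ h h'.1), if_neg (fun h' ↦ h (hA.sym _ _ h'.1)), add_zero]
  unfold hw
  rw [Finset.sum_congr rfl h1, Finset.sum_add_distrib, Finset.sum_comm, two_mul]
  congr 1
  refine Finset.sum_congr rfl fun t _ ↦ ?_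
  unfold back
  rw [Finset.sum_filter]

theorem back_eq (hA : Tri n lev A) {T C : ℕ → ℕ}
    (hTC : ∀ m, 0 < m → m < n - 1 → CovE n lev A m (T m) (C m)) {t : ℕ} (ht : t < n) :
    back n lev A t = near n lev A t ∪
      ((Finset.Ioo 0 (n - 1)).filter fun m ↦ T m = t).image C := by
  ext z
  unfold back
  simp only [Finset.mem_filter, Finset.mem_range, Finset.mem_union, Finset.mem_image,
    Finset.mem_Ioo]
  constructor
  · rintro ⟨h1, h2, h3⟩
    by_cases hz : z ∈ near n lev A t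
    · exact Or.inl hz
    · right
      have h4 : ¬ ∀ w, Vis n lev A (lev t) w → ¬ Btw z w t := fun h' ↦
        hz (mem_near.2 ⟨hA.visAdj h2 h3, h'⟩)
      push Not at h4
      obtain ⟨w, hw1, hw2⟩ := h4
      obtain ⟨m, hm, hb⟩ := hA.next h2 h3 hw1 hw2
      have hm0 : 0 < m ∧ m < n - 1 := by
        unfold Btw at hb
        omega
      obtain ⟨e1, e2⟩ := hm.unique hA (hTC m hm0.1 hm0.2)
      exact ⟨m, ⟨hm0, e1.symm⟩, e2.symm⟩
  · rintro (h | ⟨m, ⟨⟨h1, h2⟩, rfl⟩, rfl⟩)
    · have h2 := (mem_near.1 h).1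
      exact ⟨h2.1, hA.adj_near ht h, h2.2.1⟩
    · have h3 := hTC m h1 h2
      exact ⟨h3.vc.1, h3.adj, h3.vc.2.1⟩

theorem sum_back (hA : Tri n lev A) {T C : ℕ → ℕ}
    (hTC : ∀ m, 0 < m → m < n - 1 → CovE n lev A m (T m) (C m)) {t : ℕ} (ht : t < n)
    (f : ℕ → ℝ) :
    ∑ z ∈ back n lev A t, f z = (∑ z ∈ near n lev A t, f z) +
      ∑ m ∈ (Finset.Ioo 0 (n - 1)).filter fun m ↦ T m = t, f (C m) := by
  rw [back_eq hA hTC ht, Finset.sum_union]
  · congr 1
    rw [Finset.sum_image]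
    intro m hm m' hm' he
    simp only [Finset.coe_filter, Finset.mem_Ioo, Set.mem_ofPred_eq] at hm hm'
    have h1 := hTC m hm.1.1 hm.1.2
    have h2 := hTC m' hm'.1.1 hm'.1.2
    rw [hm.2] at h1
    rw [hm'.2, ← he] at h2
    have h3 := h1.nb m' h2.vm
    have h4 := h2.nb m h1.vm
    have h5 := h1.bt
    have h6 := h2.bt
    unfold Btw at *
    omega
  · rw [Finset.disjoint_left]
    intro z hz hz'
    simp only [Finset.mem_filter, Finset.mem_image, Finset.mem_Ioo] at hz'
    obtain ⟨m, ⟨⟨h1, h2⟩, rfl⟩, rfl⟩ := hz'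
    have h3 := hTC m h1 h2
    exact (mem_near.1 hz).2 m h3.vm h3.bt

/-- The exact formula for the horizontal length. -/
theorem tri_weight (hA : Tri n lev A) {T C : ℕ → ℕ}
    (hTC : ∀ m, 0 < m → m < n - 1 → CovE n lev A m (T m) (C m)) (X : ℕ → ℝ)
    (hX : StrictMono X) :
    hw n X A = 2 * ((∑ t ∈ Finset.range n, ∑ z ∈ near n lev A t, |X t - X z|) +
      ∑ m ∈ Finset.Ioo 0 (n - 1), (X (max (C m) (T m)) - X (min (C m) (T m)))) := by
  rw [hw_eq hA]
  congr 1
  rw [Finset.sum_congr rfl fun t ht ↦ sum_back hA hTC (Finset.mem_range.1 ht) _,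
    Finset.sum_add_distrib]
  congr 1
  have h1 : ∀ m ∈ Finset.Ioo 0 (n - 1), T m ∈ Finset.range n := fun m hm ↦ by
    rw [Finset.mem_Ioo] at hm
    exact Finset.mem_range.2 (hTC m hm.1 hm.2).tn
  have h2 : ∀ t ∈ Finset.range n,
      (∑ m ∈ (Finset.Ioo 0 (n - 1)).filter fun m ↦ T m = t, |X t - X (C m)|) =
      ∑ m ∈ (Finset.Ioo 0 (n - 1)).filter fun m ↦ T m = t, |X (T m) - X (C m)| := by
    intro t _
    refine Finset.sum_congr rfl fun m hm ↦ ?_
    rw [(Finset.mem_filter.1 hm).2]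
  rw [Finset.sum_congr rfl h2, Finset.sum_fiberwise_of_maps_to h1]
  refine Finset.sum_congr rfl fun m _ ↦ ?_
  rcases le_total (C m) (T m) with h | h
  · rw [max_eq_right h, min_eq_left h, abs_of_nonneg (sub_nonneg.2 (hX.monotone h))]
  · rw [max_eq_left h, min_eq_right h, abs_of_nonpos (sub_nonpos.2 (hX.monotone h)), neg_sub]

/-- Comparison of the nearest vertices. -/
theorem near_le {A₀ : ℕ → ℕ → Prop} (hA : Tri n lev A) (hA₀ : Tri n lev A₀)
    (hg : Good n lev A₀) (X : ℕ → ℝ) (hX : StrictMono X) {t : ℕ} (ht : t < n) :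
    (∑ z ∈ near n lev A₀ t, |X t - X z|) ≤ (∑ z ∈ near n lev A t, |X t - X z|) ∧
    ((∑ z ∈ near n lev A₀ t, |X t - X z|) = (∑ z ∈ near n lev A t, |X t - X z|) →
      near n lev A₀ t ⊆ near n lev A t) := by
  have hex : ∀ z, ∃ w, z ∈ near n lev A₀ t →
      w ∈ near n lev A t ∧ (z < t → w ≤ z) ∧ (t < z → z ≤ w) := by
    intro z
    by_cases hz : z ∈ near n lev A₀ t
    · have h1 := (mem_near.1 hz).1
      obtain ⟨w, hw, h2, h3⟩ := hA.exists_near ht h1.1 h1.2.1
      refine ⟨w, fun _ ↦ ⟨hw, ?_⟩⟩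
      have h4 := (mem_near.1 hw).1
      have h5 := hA₀.good_near hg ht hz h4.1 h4.2.1
      unfold Btw at h5
      omega
    · exact ⟨0, fun h ↦ absurd h hz⟩
  choose f hf using hex
  have hzt : ∀ z ∈ near n lev A₀ t, z ≠ t := by
    intro z hz h
    have := (mem_near.1 hz).1.2.1
    rw [h] at this
    omega
  have hinj : Set.InjOn f (near n lev A₀ t) := by
    intro z hz z' hz' he
    have h1 := hf z hz
    have h2 := hf z' hz'
    have h3 := (mem_near.1 hz).2 z' (mem_near.1 hz').1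
    have h4 := (mem_near.1 hz').2 z (mem_near.1 hz).1
    have h5 := hzt z hz
    have h6 := hzt z' hz'
    unfold Btw at *
    omega
  have hle : ∀ z ∈ near n lev A₀ t, |X t - X z| ≤ |X t - X (f z)| := by
    intro z hz
    obtain ⟨_, h2, h3⟩ := hf z hz
    rcases lt_or_gt_of_ne (hzt z hz) with h4 | h4
    · have h5 := h2 h4
      have h6 := hX.monotone h5
      have h7 := hX.monotone h4.le
      rw [abs_of_nonneg (by linarith), abs_of_nonneg (by linarith)]
      linarith
    · have h5 := h3 h4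
      have h6 := hX.monotone h5
      have h7 := hX.monotone (le_of_lt h4)
      rw [abs_of_nonpos (by linarith), abs_of_nonpos (by linarith)]
      linarith
  have hsub : (∑ z ∈ near n lev A₀ t, |X t - X (f z)|) ≤ ∑ z ∈ near n lev A t, |X t - X z| := by
    rw [← Finset.sum_image (f := fun z ↦ |X t - X z|) hinj]
    refine Finset.sum_le_sum_of_subset_of_nonneg ?_ fun _ _ _ ↦ abs_nonneg _
    intro w hw
    obtain ⟨z, hz, rfl⟩ := Finset.mem_image.1 hw
    exact (hf z hz).1
  refine ⟨(Finset.sum_le_sum hle).trans hsub, fun he ↦ ?_⟩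
  have h1 : (∑ z ∈ near n lev A₀ t, |X t - X z|) = ∑ z ∈ near n lev A₀ t, |X t - X (f z)| :=
    le_antisymm (Finset.sum_le_sum hle) (hsub.trans he.ge)
  have h2 := (Finset.sum_eq_sum_iff_of_le hle).1 h1
  intro z hz
  have h3 := h2 z hz
  obtain ⟨h4, h5, h6⟩ := hf z hz
  have h7 : f z = z := by
    rcases lt_or_gt_of_ne (hzt z hz) with h8 | h8
    · by_contra hne
      have h9 : f z < z := lt_of_le_of_ne (h5 h8) hne
      have h10 := hX h9
      have h11 := hX h8
      rw [abs_of_pos (by linarith), abs_of_pos (by linarith)] at h3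
      linarith
    · by_contra hne
      have h9 : z < f z := lt_of_le_of_ne (h6 h8) (Ne.symm hne)
      have h10 := hX h9
      have h11 : X t < X z := hX h8
      rw [abs_of_neg (by linarith), abs_of_neg (by linarith)] at h3
      linarith
  rw [← h7]
  exact h4

/-- Two triangulations of permutation type, one contained in the other, are equal. -/
theorem tri_eq {A₀ : ℕ → ℕ → Prop} (hA : Tri n lev A) (hA₀ : Tri n lev A₀)
    (h : ∀ a b, lev b < lev a → A₀ a b → A a b) : A = A₀ := by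
  have hs : ∀ a b, A₀ a b → A a b := by
    intro a b hab
    have hne : lev a ≠ lev b := fun h' ↦ by
      have h2 := hA₀.inj a b (hA₀.lt a b hab) (hA₀.lt' hab) h'
      rw [← h2] at hab
      exact hA₀.irr a hab
    rcases lt_or_gt_of_ne hne with h1 | h1
    · exact hA.sym _ _ (h b a h1 (hA₀.sym _ _ hab))
    · exact h a b h1 hab
  have key : ∀ v z, A v z → lev z < lev v → A₀ v z := by
    intro v z hvz hl
    by_contra hcon
    rcases hA₀.max v z (hA.lt v z hvz) (hA.lt' hvz) hl hcon with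
      ⟨t, s, h1, h2, h3, h4⟩ | ⟨t, s, h1, h2, h3, h4, h5⟩
    · exact hA.nc v z t s hvz (hs t s h1) hl h3 h2 h4
    · exact hA.nc t s v z (hs t s h1) hvz h2 h3 h4 h5
  funext a b
  refine propext ⟨fun hab ↦ ?_, hs a b⟩
  have hne : lev a ≠ lev b := fun h' ↦ by
    have h2 := hA.inj a b (hA.lt a b hab) (hA.lt' hab) h'
    rw [← h2] at hab
    exact hA.irr a hab
  rcases lt_or_gt_of_ne hne with h1 | h1
  · exact hA₀.sym _ _ (key b a (hA.sym _ _ hab) h1)
  · exact key a b hab h1

end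

end Pool.Agent.MP7a5e6cPORD
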